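import Pool.Agent.Helper38.TP5.Fin
import Pool.Graph.R_pool_sql_team_seeded_63374d34.N442.K4.Cfg

/-!
# 3-graphs with blocks contain no bad pieces
-/

set_option autoImplicit false

open Finset
open scoped Classical

namespace Pool.Agent.Helper38.TP5

open Pool.Agent.N442.LP Pool.Agent.N442.K4 Pool.Agent.Helper38.TP3 Pool.Agent.Helper38.TP4

/-- The vertices of `H` are divided into blocks such that all triples that meet two blocks are edges,
no four vertices of a block span four edges, and there are neither triads nor 4-cycles of `t`-sets in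
a block. -/
structure Blocks (t : ℕ) {n : ℕ} (H : Finset (Finset (Fin n))) (c : Fin n → ℕ) : Prop where
  cross : ∀ x y z, x ≠ y → x ≠ z → y ≠ z → ¬ (c x = c y ∧ c x = c z) → ({x, y, z} : Finset (Fin n)) ∈ H
  k4 : ∀ x y z w, x ≠ y → x ≠ z → x ≠ w → y ≠ z → y ≠ w → z ≠ w → c x = c y → c x = c z → c x = c w →
    ({x, y, z} : Finset (Fin n)) ∈ H → ({x, y, w} : Finset (Fin n)) ∈ H →
    ({x, z, w} : Finset (Fin n)) ∈ H → ({y, z, w} : Finset (Fin n)) ∈ H → False
  triad : ∀ f : Fin 3 × Fin t → Fin n, (∀ u v, c (f u) = c (f v)) → ¬ Bad3 t H f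
  cycle : ∀ f : Fin 4 × Fin t → Fin n, (∀ u v, c (f u) = c (f v)) → Function.Injective f →
    Arrow H (fun p => f (0, p)) (fun p => f (1, p)) →
    Arrow H (fun p => f (1, p)) (fun p => f (2, p)) →
    Arrow H (fun p => f (2, p)) (fun p => f (3, p)) →
    Arrow H (fun p => f (3, p)) (fun p => f (0, p)) →
    Apart H (fun p => f (0, p)) (fun p => f (2, p)) →
    Apart H (fun p => f (1, p)) (fun p => f (3, p)) → False

variable {t n : ℕ} {H : Finset (Finset (Fin n))} {c : Fin n → ℕ}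

theorem Blocks.good (hB : Blocks t H c) (ht : 2 ≤ t) {D : Fin 3 → Fin 3 → Bool} {τ : Bool}
    {f : Fin 3 × Fin t → Fin n} (hf : IsCp (pt D τ t) H f) : Good D τ := by
  obtain ⟨hi, h⟩ := hf
  have key : ∀ u v w : Fin 3 × Fin t, u ≠ v → u ≠ w → v ≠ w →
      (({f u, f v, f w} : Finset (Fin n)) ∈ H ↔ tb D τ u.1 v.1 w.1 = true) := by
    intro u v w huv huw hvw
    have h4 := h {u, v, w} (card_eq_three.mpr ⟨_, _, _, huv, huw, hvw, rfl⟩)
    unfold pt at h4
    rw [mem_gr D τ huv huw hvw, image_insert, image_insert, image_singleton] at h4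
    exact h4.symm
  have F2 : ∀ i j p q r, i ≠ j → p ≠ q →
      (({f (i, p), f (i, q), f (j, r)} : Finset (Fin n)) ∈ H ↔ D i j = true) := by
    intro i j p q r hij hpq
    rw [key (i, p) (i, q) (j, r) (fun e => hpq (congrArg Prod.snd e))
      (fun e => hij (congrArg Prod.fst e)) (fun e => hij (congrArg Prod.fst e))]
    unfold tb
    simp [hij]
  have F3 : ∀ i j l p q r, i ≠ j → i ≠ l → j ≠ l →
      (({f (i, p), f (j, q), f (l, r)} : Finset (Fin n)) ∈ H ↔ τ = true) := by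
    intro i j l p q r hij hil hjl
    rw [key (i, p) (j, q) (l, r) (fun e => hij (congrArg Prod.fst e))
      (fun e => hil (congrArg Prod.fst e)) (fun e => hjl (congrArg Prod.fst e))]
    unfold tb
    simp [hij, hil, hjl]
  have ne : ∀ {a b : Fin 3} {p q : Fin t}, (a, p) ≠ (b, q) → f (a, p) ≠ f (b, q) :=
    fun h h' => h (hi h')
  have ne1 : ∀ {a b : Fin 3} (p q : Fin t), a ≠ b → f (a, p) ≠ f (b, q) :=
    fun p q h => ne fun e => h (congrArg Prod.fst e)
  have ne2 : ∀ (a : Fin 3) {p q : Fin t}, p ≠ q → f (a, p) ≠ f (a, q) :=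
    fun a _ _ h => ne fun e => h (congrArg Prod.snd e)
  obtain ⟨p0, hp0⟩ : ∃ p0 : Fin t, p0 = ⟨0, by omega⟩ := ⟨_, rfl⟩
  obtain ⟨p1, hp1⟩ : ∃ p1 : Fin t, p1 = ⟨1, by omega⟩ := ⟨_, rfl⟩
  have p01 : p0 ≠ p1 := by
    rw [hp0, hp1]
    simp
  by_cases hmix : ∃ i p q, c (f (i, p)) ≠ c (f (i, q))
  · obtain ⟨i, p, q, hc⟩ := hmix
    have hpq : p ≠ q := by
      rintro rfl
      exact hc rfl
    have hD1 : ∀ j, i ≠ j → D i j = true := by
      intro j hij
      rw [← F2 i j p q p0 hij hpq]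
      exact hB.cross _ _ _ (ne2 i hpq) (ne1 _ _ hij) (ne1 _ _ hij) fun e => hc e.1
    have hD2 : ∀ j, i ≠ j → D j i = true := by
      intro j hij
      by_cases he : c (f (j, p0)) = c (f (j, p1)) ∧ c (f (j, p0)) = c (f (i, p))
      · rw [← F2 j i p0 p1 q hij.symm p01]
        exact hB.cross _ _ _ (ne2 j p01) (ne1 _ _ hij.symm) (ne1 _ _ hij.symm) fun e =>
          hc (he.2.symm.trans e.2)
      · rw [← F2 j i p0 p1 p hij.symm p01]
        exact hB.cross _ _ _ (ne2 j p01) (ne1 _ _ hij.symm) (ne1 _ _ hij.symm) he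
    obtain ⟨j, l, hij, hil, hjl⟩ := three_two i
    refine Or.inl ⟨?_, i, j, l, hij, hil, hjl, hD1 j hij, hD2 j hij, hD1 l hil, hD2 l hil⟩
    by_cases he : c (f (j, p0)) = c (f (l, p0)) ∧ c (f (j, p0)) = c (f (i, p))
    · rw [← F3 j l i p0 p0 q hjl hij.symm hil.symm]
      exact hB.cross _ _ _ (ne1 _ _ hjl) (ne1 _ _ hij.symm) (ne1 _ _ hil.symm) fun e =>
        hc (he.2.symm.trans e.2)
    · rw [← F3 j l i p0 p0 p hjl hij.symm hil.symm]
      exact hB.cross _ _ _ (ne1 _ _ hjl) (ne1 _ _ hij.symm) (ne1 _ _ hil.symm) he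
  push Not at hmix
  by_cases hbl : ∃ i j, i ≠ j ∧ c (f (i, p0)) ≠ c (f (j, p0))
  · obtain ⟨i, j, hij, hc⟩ := hbl
    have hfull : ∀ i j, i ≠ j → c (f (i, p0)) ≠ c (f (j, p0)) → D i j = true := by
      intro i j hij hc
      rw [← F2 i j p0 p1 p0 hij p01]
      exact hB.cross _ _ _ (ne2 i p01) (ne1 _ _ hij) (ne1 _ _ hij) fun e => hc e.2
    obtain ⟨l, hil, hjl⟩ := three_third i j
    have hτ : τ = true := by
      rw [← F3 i j l p0 p0 p0 hij hil hjl]
      exact hB.cross _ _ _ (ne1 _ _ hij) (ne1 _ _ hil) (ne1 _ _ hjl) fun e => hc e.1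
    by_cases he : c (f (i, p0)) = c (f (l, p0))
    · have hc' : c (f (j, p0)) ≠ c (f (l, p0)) := fun e => hc (he.trans e.symm)
      exact Or.inl ⟨hτ, j, i, l, hij.symm, hjl, hil, hfull j i hij.symm hc.symm, hfull i j hij hc,
        hfull j l hjl hc', hfull l j hjl.symm hc'.symm⟩
    · exact Or.inl ⟨hτ, i, j, l, hij, hil, hjl, hfull i j hij hc, hfull j i hij.symm hc.symm,
        hfull i l hil he, hfull l i hil.symm fun e => he e.symm⟩
  push Not at hbl
  have hall : ∀ u v, c (f u) = c (f v) := by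
    have h1 : ∀ u, c (f u) = c (f (0, p0)) := by
      rintro ⟨a, p⟩
      rw [hmix a p p0]
      by_cases ha : a = 0
      · rw [ha]
      · exact hbl a 0 ha
    intro u v
    rw [h1 u, h1 v]
  refine Or.inr ⟨?_, ?_⟩
  · intro i j hij h1
    by_contra h2
    rw [Bool.not_eq_false] at h2
    refine hB.k4 (f (i, p0)) (f (i, p1)) (f (j, p0)) (f (j, p1)) (ne2 i p01) (ne1 _ _ hij)
      (ne1 _ _ hij) (ne1 _ _ hij) (ne1 _ _ hij) (ne2 j p01) (hall _ _) (hall _ _) (hall _ _)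
      ((F2 i j p0 p1 p0 hij p01).mpr h1) ((F2 i j p0 p1 p1 hij p01).mpr h1) ?_ ?_
    · have := (F2 j i p0 p1 p0 hij.symm p01).mpr h2
      rwa [rot3 (f (i, p0))]
    · have := (F2 j i p0 p1 p1 hij.symm p01).mpr h2
      rwa [rot3 (f (i, p1))]
  · by_cases hτ : τ = true
    · refine Or.inr fun i j l hij hil hjl => ⟨?_, fun h1 => ?_⟩
      · by_contra hcon
        push Not at hcon
        obtain ⟨n1, n2, n3, n4⟩ := hcon
        have hv := inj3 hij hil hjl
        refine hB.triad (fun u => f (![i, j, l] u.1, u.2)) (fun u v => hall _ _) ⟨?_, ⟨?_, ?_⟩,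
          ⟨?_, ?_⟩, ?_⟩
        · intro u v e
          have e1 := hi e
          simp only [Prod.mk.injEq] at e1
          exact Prod.ext (hv e1.1) e1.2
        · intro p q r hpq hh
          exact n1 ((F2 i j p q r hij hpq).mp hh)
        · intro p q r hqr hh
          apply n2
          rw [← F2 j i q r p hij.symm hqr]
          rwa [← rot3 (f (i, p))]
        · intro p q r hpq hh
          exact n3 ((F2 i l p q r hil hpq).mp hh)
        · intro p q r hqr hh
          apply n4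
          rw [← F2 l i q r p hil.symm hqr]
          rwa [← rot3 (f (i, p))]
        · intro p q r
          exact (F3 i j l p q r hij hil hjl).mpr hτ
      · by_contra h2
        rw [Bool.not_eq_false] at h2
        exact hB.k4 (f (i, p0)) (f (i, p1)) (f (j, p0)) (f (l, p0)) (ne2 i p01) (ne1 _ _ hij)
          (ne1 _ _ hil) (ne1 _ _ hij) (ne1 _ _ hil) (ne1 _ _ hjl) (hall _ _) (hall _ _) (hall _ _)
          ((F2 i j p0 p1 p0 hij p01).mpr h1) ((F2 i l p0 p1 p0 hil p01).mpr h2)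
          ((F3 i j l p0 p0 p0 hij hil hjl).mpr hτ) ((F3 i j l p1 p0 p0 hij hil hjl).mpr hτ)
    · exact Or.inl (by simpa using hτ)

theorem mem_quad {τ : Fin 4 → Bool} {u v w : Fin 4 × Fin t} (huv : u ≠ v) (huw : u ≠ w)
    (hvw : v ≠ w) (h1 : u.1 = v.1) (h2 : u.1 ≠ w.1) :
    ({u, v, w} : Finset (Fin 4 × Fin t)) ∈ blow (quadR τ) t ↔ w.1 = u.1 + 1 := by
  rw [mem_blow]
  constructor
  · rintro ⟨-, x, hx, y, hy, z, hz, hxy, hxz, hyz, hq⟩
    have cl : ∀ s ∈ ({u, v, w} : Finset (Fin 4 × Fin t)), s = w ∨ (s ≠ w ∧ s.1 = u.1) := by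
      intro s hs
      simp only [mem_insert, mem_singleton] at hs
      rcases hs with rfl | rfl | rfl
      · exact Or.inr ⟨huw, rfl⟩
      · exact Or.inr ⟨hvw, h1.symm⟩
      · exact Or.inl rfl
    rcases hq with ⟨e1, e2⟩ | ⟨e1, e2, e3, -⟩
    · rcases cl x hx with k | ⟨-, k⟩
      · rcases cl y hy with l | ⟨-, l⟩
        · exact absurd (k.trans l.symm) hxy
        · exact absurd (l.symm.trans (e1.symm.trans (congrArg Prod.fst k))) h2
      · rcases cl y hy with l | ⟨-, l⟩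
        · exact absurd (k.symm.trans (e1.trans (congrArg Prod.fst l))) h2
        · rcases cl z hz with r | ⟨-, r⟩
          · rw [← r, e2, k]
          · exact absurd (r.symm.trans (e2.trans (by rw [k]))) (four_ne1 _)
    · rcases cl x hx with k | ⟨-, k⟩
      · rcases cl y hy with l | ⟨-, l⟩
        · exact absurd (k.trans l.symm) hxy
        · rcases cl z hz with r | ⟨-, r⟩
          · exact absurd (k.trans r.symm) hxz
          · exact absurd (l.trans r.symm) e3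
      · rcases cl y hy with l | ⟨-, l⟩
        · rcases cl z hz with r | ⟨-, r⟩
          · exact absurd (l.trans r.symm) hyz
          · exact absurd (k.trans r.symm) e2
        · exact absurd (k.trans l.symm) e1
  · intro h
    exact ⟨card_eq_three.mpr ⟨u, v, w, huv, huw, hvw, rfl⟩,
      u, by simp, v, by simp, w, by simp, huv, huw, hvw, Or.inl ⟨h1, h⟩⟩

theorem Blocks.noquad (hB : Blocks t H c) (ht : 2 ≤ t) {τ : Fin 4 → Bool}
    {f : Fin 4 × Fin t → Fin n} (hf : IsCp (blow (quadR τ) t) H f) : False := by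
  obtain ⟨hi, h⟩ := hf
  have F2 : ∀ i j p q r, i ≠ j → p ≠ q →
      (({f (i, p), f (i, q), f (j, r)} : Finset (Fin n)) ∈ H ↔ j = i + 1) := by
    intro i j p q r hij hpq
    have n1 : ((i, p) : Fin 4 × Fin t) ≠ (i, q) := fun e => hpq (congrArg Prod.snd e)
    have n2 : ((i, p) : Fin 4 × Fin t) ≠ (j, r) := fun e => hij (congrArg Prod.fst e)
    have n3 : ((i, q) : Fin 4 × Fin t) ≠ (j, r) := fun e => hij (congrArg Prod.fst e)
    have h4 := h {(i, p), (i, q), (j, r)} (card_eq_three.mpr ⟨_, _, _, n1, n2, n3, rfl⟩)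
    rw [mem_quad n1 n2 n3 rfl hij, image_insert, image_insert, image_singleton] at h4
    exact h4.symm
  have ne : ∀ {a b : Fin 4} {p q : Fin t}, (a, p) ≠ (b, q) → f (a, p) ≠ f (b, q) :=
    fun h h' => h (hi h')
  have ne1 : ∀ {a b : Fin 4} (p q : Fin t), a ≠ b → f (a, p) ≠ f (b, q) :=
    fun p q h => ne fun e => h (congrArg Prod.fst e)
  have ne2 : ∀ (a : Fin 4) {p q : Fin t}, p ≠ q → f (a, p) ≠ f (a, q) :=
    fun a _ _ h => ne fun e => h (congrArg Prod.snd e)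
  obtain ⟨p0, hp0⟩ : ∃ p0 : Fin t, p0 = ⟨0, by omega⟩ := ⟨_, rfl⟩
  obtain ⟨p1, hp1⟩ : ∃ p1 : Fin t, p1 = ⟨1, by omega⟩ := ⟨_, rfl⟩
  have p01 : p0 ≠ p1 := by
    rw [hp0, hp1]
    simp
  have G : ∀ i j p q r, i ≠ j → j ≠ i + 1 → p ≠ q →
      c (f (i, p)) = c (f (i, q)) ∧ c (f (i, p)) = c (f (j, r)) := by
    intro i j p q r hij hj hpq
    by_contra hcon
    exact hj ((F2 i j p q r hij hpq).mp
      (hB.cross _ _ _ (ne2 i hpq) (ne1 _ _ hij) (ne1 _ _ hij) hcon))
  have hall1 : ∀ i p q, c (f (i, p)) = c (f (i, q)) := by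
    intro i p q
    by_cases hpq : p = q
    · rw [hpq]
    obtain ⟨h1, h2⟩ := four_ne2 i
    exact (G i (i + 2) p q p0 h1 h2 hpq).1
  obtain ⟨⟨g1, g2⟩, ⟨g3, g4⟩, g5, g6⟩ := four_facts
  have b10 : c (f (1, p0)) = c (f (0, p0)) := (G 1 0 p0 p1 p0 g1 g2 p01).2
  have b20 : c (f (2, p0)) = c (f (0, p0)) := (G 2 0 p0 p1 p0 g3 g4 p01).2
  have b31 : c (f (3, p0)) = c (f (1, p0)) := (G 3 1 p0 p1 p0 g5 g6 p01).2
  have h0 : ∀ i, c (f (i, p0)) = c (f (0, p0)) := all4 rfl b10 b20 (b31.trans b10)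
  have hall : ∀ u v, c (f u) = c (f v) := by
    have h1 : ∀ u, c (f u) = c (f (0, p0)) := by
      rintro ⟨a, p⟩
      rw [hall1 a p p0, h0 a]
    intro u v
    rw [h1 u, h1 v]
  have hArrow : ∀ i j, i ≠ j → j = i + 1 → i ≠ j + 1 →
      Arrow H (fun p => f (i, p)) (fun p => f (j, p)) := by
    intro i j hij hj hi'
    refine ⟨fun p q r hpq => (F2 i j p q r hij hpq).mpr hj, fun p q r hqr hh => ?_⟩
    apply hi'
    rw [← F2 j i q r p hij.symm hqr]
    rwa [← rot3 (f (i, p))]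
  have hApart : ∀ i j, i ≠ j → j ≠ i + 1 → i ≠ j + 1 →
      Apart H (fun p => f (i, p)) (fun p => f (j, p)) := by
    intro i j hij hj hi'
    refine ⟨fun p q r hpq hh => hj ((F2 i j p q r hij hpq).mp hh), fun p q r hqr hh => ?_⟩
    apply hi'
    rw [← F2 j i q r p hij.symm hqr]
    rwa [← rot3 (f (i, p))]
  obtain ⟨⟨a1, a2, a3⟩, ⟨b1, b2, b3⟩, ⟨c1, c2, c3⟩, d1, d2, d3⟩ := four_arrow
  obtain ⟨⟨e1, e2, e3⟩, k1, k2, k3⟩ := four_apart
  exact hB.cycle f hall hi (hArrow 0 1 a1 a2 a3) (hArrow 1 2 b1 b2 b3) (hArrow 2 3 c1 c2 c3)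
    (hArrow 3 0 d1 d2 d3) (hApart 0 2 e1 e2 e3) (hApart 1 3 k1 k2 k3)

/-- **No copies.** -/
theorem Blocks.zero (hB : Blocks t H c) (ht : 2 ≤ t) :
    (∀ D τ, ¬ Good D τ → cps (pt D τ t) H = 0) ∧
      ∀ τ : Fin 4 → Bool, cps (blow (quadR τ) t) H = 0 := by
  refine ⟨fun D τ hg => ?_, fun τ => ?_⟩
  · unfold cps
    rw [card_eq_zero, filter_eq_empty_iff]
    exact fun f _ hf => hg (hB.good ht hf)
  · unfold cps
    rw [card_eq_zero, filter_eq_empty_iff]
    exact fun f _ hf => hB.noquad ht hf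

end Pool.Agent.Helper38.TP5
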