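import Mathlib

/-!
# Facts on four classes
-/

set_option autoImplicit false

namespace Pool.Agent.Helper38.TP5

theorem four_case : ∀ a b c d : Fin 4, a ≠ b → a ≠ c → b ≠ c → d ≠ a → d ≠ b → d ≠ c →
    (a = d + 1 ∧ b = d + 2 ∧ c = d + 3) ∨ (a = d + 1 ∧ b = d + 3 ∧ c = d + 2) ∨
    (a = d + 2 ∧ b = d + 1 ∧ c = d + 3) ∨ (a = d + 2 ∧ b = d + 3 ∧ c = d + 1) ∨
    (a = d + 3 ∧ b = d + 1 ∧ c = d + 2) ∨ (a = d + 3 ∧ b = d + 2 ∧ c = d + 1) := by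
  intro a b c d h1 h2 h3 h4 h5 h6
  have k : ∀ x y : Fin 4, x ≠ y → y = x + 1 ∨ y = x + 2 ∨ y = x + 3 := by decide
  have ka := k d a h4
  have kb := k d b h5
  have kc := k d c h6
  rcases ka with rfl | rfl | rfl <;> rcases kb with rfl | rfl | rfl <;>
    rcases kc with rfl | rfl | rfl <;>
    first
    | exact absurd rfl h1
    | exact absurd rfl h2
    | exact absurd rfl h3
    | exact Or.inl ⟨rfl, rfl, rfl⟩
    | exact Or.inr (Or.inl ⟨rfl, rfl, rfl⟩)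
    | exact Or.inr (Or.inr (Or.inl ⟨rfl, rfl, rfl⟩))
    | exact Or.inr (Or.inr (Or.inr (Or.inl ⟨rfl, rfl, rfl⟩)))
    | exact Or.inr (Or.inr (Or.inr (Or.inr (Or.inl ⟨rfl, rfl, rfl⟩))))
    | exact Or.inr (Or.inr (Or.inr (Or.inr (Or.inr ⟨rfl, rfl, rfl⟩))))

theorem four_pair : ∀ a c : Fin 4, c = a ∨ c = a + 1 ∨ c = a + 2 ∨ a = c + 1 := by decide

theorem four_ex : ∀ a b c : Fin 4, ∃ d : Fin 4, d ≠ a ∧ d ≠ b ∧ d ≠ c := by decide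

theorem four_ne2 : ∀ i : Fin 4, i ≠ i + 2 ∧ i + 2 ≠ i + 1 := by decide

theorem four_ne1 : ∀ i : Fin 4, i ≠ i + 1 := by decide

theorem four_facts : ((1 : Fin 4) ≠ 0 ∧ (0 : Fin 4) ≠ 1 + 1) ∧ ((2 : Fin 4) ≠ 0 ∧ (0 : Fin 4) ≠ 2 + 1) ∧
    ((3 : Fin 4) ≠ 1 ∧ (1 : Fin 4) ≠ 3 + 1) := by decide

theorem four_arrow : ((0 : Fin 4) ≠ 1 ∧ (1 : Fin 4) = 0 + 1 ∧ (0 : Fin 4) ≠ 1 + 1) ∧
    ((1 : Fin 4) ≠ 2 ∧ (2 : Fin 4) = 1 + 1 ∧ (1 : Fin 4) ≠ 2 + 1) ∧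
    ((2 : Fin 4) ≠ 3 ∧ (3 : Fin 4) = 2 + 1 ∧ (2 : Fin 4) ≠ 3 + 1) ∧
    ((3 : Fin 4) ≠ 0 ∧ (0 : Fin 4) = 3 + 1 ∧ (3 : Fin 4) ≠ 0 + 1) := by decide

theorem four_apart : ((0 : Fin 4) ≠ 2 ∧ (2 : Fin 4) ≠ 0 + 1 ∧ (0 : Fin 4) ≠ 2 + 1) ∧
    ((1 : Fin 4) ≠ 3 ∧ (3 : Fin 4) ≠ 1 + 1 ∧ (1 : Fin 4) ≠ 3 + 1) := by decide

theorem three_two : ∀ i : Fin 3, ∃ j l : Fin 3, i ≠ j ∧ i ≠ l ∧ j ≠ l := by decide

theorem three_third : ∀ i j : Fin 3, ∃ l : Fin 3, i ≠ l ∧ j ≠ l := by decide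

theorem rot3 {α : Type} [DecidableEq α] (a b c : α) : ({a, b, c} : Finset α) = {b, c, a} := by
  ext x
  simp only [Finset.mem_insert, Finset.mem_singleton]
  tauto

theorem inj4 {V : Type} {a b c d : V} (hab : a ≠ b) (hac : a ≠ c) (had : a ≠ d) (hbc : b ≠ c)
    (hbd : b ≠ d) (hcd : c ≠ d) : Function.Injective ![a, b, c, d] := by
  intro x y h
  match x, y with
  | 0, 0 => rfl
  | 0, 1 => exact absurd h hab
  | 0, 2 => exact absurd h hac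
  | 0, 3 => exact absurd h had
  | 1, 0 => exact absurd h hab.symm
  | 1, 1 => rfl
  | 1, 2 => exact absurd h hbc
  | 1, 3 => exact absurd h hbd
  | 2, 0 => exact absurd h hac.symm
  | 2, 1 => exact absurd h hbc.symm
  | 2, 2 => rfl
  | 2, 3 => exact absurd h hcd
  | 3, 0 => exact absurd h had.symm
  | 3, 1 => exact absurd h hbd.symm
  | 3, 2 => exact absurd h hcd.symm
  | 3, 3 => rfl

theorem all4 {Q : Fin 4 → Prop} (h0 : Q 0) (h1 : Q 1) (h2 : Q 2) (h3 : Q 3) : ∀ i, Q i := by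
  intro i
  match i with
  | 0 => exact h0
  | 1 => exact h1
  | 2 => exact h2
  | 3 => exact h3

end Pool.Agent.Helper38.TP5
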