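import Pool.Agent.Helper38.TP5.Pat
import Pool.Agent.Helper38.TP5.Dec

/-!
# Blow-ups of finite patterns
-/

set_option autoImplicit false

open Finset
open scoped Classical

namespace Pool.Agent.Helper38.TP5

open Pool.Agent.N442.LP Pool.Agent.Helper38.TP3 Pool.Agent.Helper38.TP4

/-! ### Blow-ups of finite patterns -/

/-- The 3-graph on `α × Fin t` whose edges are the triples of vertices in the classes `a`, `b`, `c` with
`Q a b c`. -/
noncomputable def blow {α : Type} [Fintype α] (Q : α → α → α → Prop) (t : ℕ) :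
    Finset (Finset (α × Fin t)) :=
  univ.filter fun e => e.card = 3 ∧ ∃ x ∈ e, ∃ y ∈ e, ∃ z ∈ e, x ≠ y ∧ x ≠ z ∧ y ≠ z ∧
    Q x.1 y.1 z.1

theorem mem_blow {α : Type} [Fintype α] {Q : α → α → α → Prop} {t : ℕ} {e : Finset (α × Fin t)} :
    e ∈ blow Q t ↔ e.card = 3 ∧ ∃ x ∈ e, ∃ y ∈ e, ∃ z ∈ e, x ≠ y ∧ x ≠ z ∧ y ≠ z ∧
      Q x.1 y.1 z.1 := by
  unfold blow
  rw [mem_filter]
  exact ⟨fun h => h.2, fun h => ⟨mem_univ _, h⟩⟩

theorem blow_pos {α : Type} [Fintype α] {Q : α → α → α → Prop} {k t n : ℕ}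
    {G : Finset (Finset (Fin n))} {P : Fin k → Fin k → Fin k → Prop}
    {y : Fin k → Fin (t + 2) → Fin n} (hR : Real G P y) (hI : Inj y) {v : α → Fin k}
    (hv : Function.Injective v) (h1 : ∀ a b c, Q a b c → P (v a) (v b) (v c))
    (h2 : ∀ a b c, P (v a) (v b) (v c) →
      Q a b c ∨ Q a c b ∨ Q b a c ∨ Q b c a ∨ Q c a b ∨ Q c b a) : HasCp (blow Q t) G y := by
  have hi : Function.Injective (fun x : α × Fin t => (v x.1, x.2.castAdd 2)) := by
    rintro ⟨a, p⟩ ⟨b, q⟩ hab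
    simp only [Prod.mk.injEq] at hab
    obtain ⟨h1, h2⟩ := hab
    rw [hv h1, Fin.castAdd_injective _ _ h2]
  have hmem : ∀ x w z : α × Fin t, x ≠ w → x ≠ z → w ≠ z →
      (({y (v x.1) (x.2.castAdd 2), y (v w.1) (w.2.castAdd 2), y (v z.1) (z.2.castAdd 2)} :
        Finset (Fin n)) ∈ G ↔ P (v x.1) (v w.1) (v z.1)) := fun x w z hxw hxz hwz =>
    hR _ _ _ _ _ _ (hi.ne hxw) (hi.ne hwz) (hi.ne hxz)
  refine ⟨fun x => (v x.1, x.2.castAdd 2), hi, ?_, ?_⟩
  · intro a b hab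
    have := hI _ _ _ _ hab
    exact hi (Prod.ext this.1 this.2)
  · intro e he
    constructor
    · intro h
      obtain ⟨-, -, x, hx, w, hw, z, hz, hxw, hxz, hwz, hq⟩ := mem_filter.mp h
      have he' : e = {x, w, z} := by
        symm
        refine eq_of_subset_of_card_le ?_ ?_
        · intro u hu
          simp only [mem_insert, mem_singleton] at hu
          rcases hu with rfl | rfl | rfl <;> assumption
        · rw [he, card_eq_three.mpr ⟨x, w, z, hxw, hxz, hwz, rfl⟩]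
      rw [he', image_insert, image_insert, image_singleton]
      exact (hmem x w z hxw hxz hwz).mpr (h1 _ _ _ hq)
    · intro h
      obtain ⟨x, w, z, hxw, hxz, hwz, rfl⟩ := card_eq_three.mp he
      rw [image_insert, image_insert, image_singleton] at h
      have hp := (hmem x w z hxw hxz hwz).mp h
      refine mem_filter.mpr ⟨mem_univ _, he, ?_⟩
      rcases h2 _ _ _ hp with q | q | q | q | q | q
      · exact ⟨x, by simp, w, by simp, z, by simp, hxw, hxz, hwz, q⟩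
      · exact ⟨x, by simp, z, by simp, w, by simp, hxz, hxw, hwz.symm, q⟩
      · exact ⟨w, by simp, x, by simp, z, by simp, hxw.symm, hwz, hxz, q⟩
      · exact ⟨w, by simp, z, by simp, x, by simp, hwz, hxw.symm, hxz.symm, q⟩
      · exact ⟨z, by simp, x, by simp, w, by simp, hxz.symm, hwz.symm, hxw, q⟩
      · exact ⟨z, by simp, w, by simp, x, by simp, hwz.symm, hxz.symm, hxw.symm, q⟩

/-- The patterns on four classes: two vertices in the class `i` and one in the class `i + 1` are an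
edge, and three vertices in the three classes different from `d` are an edge if `τ d`. -/
def quadR (τ : Fin 4 → Bool) (a b c : Fin 4) : Prop :=
  (a = b ∧ c = a + 1) ∨ (a ≠ b ∧ a ≠ c ∧ b ≠ c ∧ ∃ d, d ≠ a ∧ d ≠ b ∧ d ≠ c ∧ τ d = true)

/-- four parts with the arcs of an oriented 4-cycle -/
theorem quad_pos {k t n : ℕ} {G : Finset (Finset (Fin n))} {P : Fin k → Fin k → Fin k → Prop}
    {y : Fin k → Fin (t + 2) → Fin n} (hP : IsPat P) (hR : Real G P y) (hI : Inj y)
    {v : Fin 4 → Fin k} (hv : Function.Injective v) (harc : ∀ i, P (v i) (v i) (v (i + 1)))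
    (hback : ∀ i, ¬ P (v (i + 1)) (v (i + 1)) (v i)) (hfar : ∀ i, ¬ P (v i) (v i) (v (i + 2))) :
    ∃ τ : Fin 4 → Bool, HasCp (blow (quadR τ) t) G y := by
  refine ⟨fun d => decide (P (v (d + 1)) (v (d + 2)) (v (d + 3))), blow_pos hR hI hv ?_ ?_⟩
  · have key : ∀ a b c d : Fin 4, a ≠ b → a ≠ c → b ≠ c → d ≠ a → d ≠ b → d ≠ c →
        P (v (d + 1)) (v (d + 2)) (v (d + 3)) → P (v a) (v b) (v c) := by
      intro a b c d h1 h2 h3 h4 h5 h6 hp
      have p12 := hP.s12 hp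
      have p23 := hP.s23 hp
      have p231 := hP.s12 p23
      have p123 := hP.s23 p12
      have p321 := hP.s23 p231
      rcases four_case a b c d h1 h2 h3 h4 h5 h6 with ⟨rfl, rfl, rfl⟩ | ⟨rfl, rfl, rfl⟩ |
        ⟨rfl, rfl, rfl⟩ | ⟨rfl, rfl, rfl⟩ | ⟨rfl, rfl, rfl⟩ | ⟨rfl, rfl, rfl⟩ <;> assumption
    rintro a b c (⟨rfl, rfl⟩ | ⟨h1, h2, h3, d, h4, h5, h6, h7⟩)
    · exact harc a
    · exact key a b c d h1 h2 h3 h4 h5 h6 (of_decide_eq_true h7)
  · have key : ∀ a b c d : Fin 4, a ≠ b → a ≠ c → b ≠ c → d ≠ a → d ≠ b → d ≠ c →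
        P (v a) (v b) (v c) → P (v (d + 1)) (v (d + 2)) (v (d + 3)) := by
      intro a b c d h1 h2 h3 h4 h5 h6 hp
      have p12 := hP.s12 hp
      have p23 := hP.s23 hp
      have p231 := hP.s12 p23
      have p123 := hP.s23 p12
      have p321 := hP.s23 p231
      rcases four_case a b c d h1 h2 h3 h4 h5 h6 with ⟨rfl, rfl, rfl⟩ | ⟨rfl, rfl, rfl⟩ |
        ⟨rfl, rfl, rfl⟩ | ⟨rfl, rfl, rfl⟩ | ⟨rfl, rfl, rfl⟩ | ⟨rfl, rfl, rfl⟩ <;> assumption
    have two : ∀ a c : Fin 4, P (v a) (v a) (v c) → c = a + 1 := by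
      intro a c hp
      rcases four_pair a c with rfl | rfl | rfl | rfl
      · exact absurd hp (hP.irr _)
      · rfl
      · exact absurd hp (hfar a)
      · exact absurd hp (hback c)
    intro a b c hp
    by_cases hab : a = b
    · subst hab
      exact Or.inl (Or.inl ⟨rfl, two _ _ hp⟩)
    by_cases hac : a = c
    · subst hac
      exact Or.inr (Or.inl (Or.inl ⟨rfl, two _ _ (hP.s23 hp)⟩))
    by_cases hbc : b = c
    · subst hbc
      exact Or.inr (Or.inr (Or.inr (Or.inl (Or.inl ⟨rfl, two _ _ (hP.s23 (hP.s12 hp))⟩))))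
    obtain ⟨d, h4, h5, h6⟩ := four_ex a b c
    exact Or.inl (Or.inr ⟨hab, hac, hbc, d, h4, h5, h6,
      decide_eq_true (key a b c d hab hac hbc h4 h5 h6 hp)⟩)

end Pool.Agent.Helper38.TP5
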