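import Pool.Agent.Helper38.TP5.Loc

/-!
# The theorem for unions of Fon-der-Flaass systems
-/

set_option autoImplicit false

open Finset
open scoped Classical

namespace Pool.Agent.Helper38.TP5

open Pool.Agent.N442.LP Pool.Agent.Helper38.TP3 Pool.Agent.Helper38.TP4

theorem hqU (t k T : ℕ) : ∃ C : ℝ, 0 ≤ C ∧ ∀ n : ℕ, 0 < n → ∀ G : Finset (Finset (Fin n)),
    (((univ : Finset (Fin k → Fin T → Fin n)).filter (BB t k T n G)).card : ℝ) ≤
      C * QQ t n G * (n : ℝ) ^ (k * T) := by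
  obtain ⟨C1, hC1, h1⟩ := hq_fam (fun p : BU => pt p.1.1 p.1.2 t) k T
  obtain ⟨C2, hC2, h2⟩ := hq_fam (fun τ : Fin 4 → Bool => blow (quadR τ) t) k T
  refine ⟨C1 + C2, add_nonneg hC1 hC2, fun n hn G => ?_⟩
  have a1 := h1 n hn G
  have a2 := h2 n hn G
  have hs1 : 0 ≤ ∑ p : BU, qc (pt p.1.1 p.1.2 t) n G := sum_nonneg fun p _ => qc_nonneg _ _ _
  have hs2 : 0 ≤ ∑ τ : Fin 4 → Bool, qc (blow (quadR τ) t) n G :=
    sum_nonneg fun p _ => qc_nonneg _ _ _
  have hcard : (((univ : Finset (Fin k → Fin T → Fin n)).filter (BB t k T n G)).card : ℝ) ≤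
      (((univ : Finset (Fin k → Fin T → Fin n)).filter
        (BC (fun p : BU => pt p.1.1 p.1.2 t) k T n G)).card : ℝ) +
      (((univ : Finset (Fin k → Fin T → Fin n)).filter
        (BC (fun τ : Fin 4 → Bool => blow (quadR τ) t) k T n G)).card : ℝ) := by
    have : (univ : Finset (Fin k → Fin T → Fin n)).filter (BB t k T n G) ⊆
        (univ : Finset (Fin k → Fin T → Fin n)).filter
          (BC (fun p : BU => pt p.1.1 p.1.2 t) k T n G) ∪
        (univ : Finset (Fin k → Fin T → Fin n)).filter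
          (BC (fun τ : Fin 4 → Bool => blow (quadR τ) t) k T n G) := by
      intro y hy
      rw [mem_union, mem_filter, mem_filter]
      rcases (mem_filter.mp hy).2 with h | h
      · exact Or.inl ⟨mem_univ _, h⟩
      · exact Or.inr ⟨mem_univ _, h⟩
    exact_mod_cast (card_le_card this).trans (card_union_le _ _)
  have hN : (0 : ℝ) ≤ (n : ℝ) ^ (k * T) := by positivity
  unfold QQ
  set s1 := ∑ p : BU, qc (pt p.1.1 p.1.2 t) n G
  set s2 := ∑ τ : Fin 4 → Bool, qc (blow (quadR τ) t) n G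
  have e : (C1 + C2) * (s1 + s2) * (n : ℝ) ^ (k * T) = C1 * s1 * (n : ℝ) ^ (k * T) +
      C2 * s2 * (n : ℝ) ^ (k * T) + (C1 * s2 + C2 * s1) * (n : ℝ) ^ (k * T) := by ring
  rw [e]
  have : 0 ≤ (C1 * s2 + C2 * s1) * (n : ℝ) ^ (k * T) :=
    mul_nonneg (add_nonneg (mul_nonneg hC1 hs2) (mul_nonneg hC2 hs1)) hN
  linarith

/-- **Unions of Fon-der-Flaass systems.** -/
theorem thmU {m : ℕ} (hm : 3 ≤ m) (t : ℕ) {ε : ℝ} (hε : 0 < ε) : ∃ δ : ℝ, 0 < δ ∧ ∃ N : ℕ,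
    ∀ n : ℕ, N ≤ n → ∀ G : Finset (Finset (Fin n)), (∀ e ∈ G, e.card = 3) → KFree m G →
      (∀ p : BU, (cps (pt p.1.1 p.1.2 t) G : ℝ) ≤ δ * (n : ℝ) ^ (3 * t)) →
      (∀ τ : Fin 4 → Bool, (cps (blow (quadR τ) t) G : ℝ) ≤ δ * (n : ℝ) ^ (4 * t)) →
      (G.card : ℝ) ≤ (rho (m - 1) + ε) * (n.choose 3 : ℝ) := by
  obtain ⟨δ, hδ, N, hN⟩ := main_abs m (rho (m - 1)) (BB t) (fun n G => QQ t n G)
    (rho_nonneg (by omega)) (hqU t) (fun k hk => locU hm k t hk) hε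
  obtain ⟨q, hq⟩ : ∃ q : ℝ, q = (Fintype.card BU : ℝ) + 16 := ⟨_, rfl⟩
  have hq0 : 0 < q := by
    have := Nat.cast_nonneg (α := ℝ) (Fintype.card BU)
    linarith
  refine ⟨δ / q, div_pos hδ hq0, max N 1, fun n hn G h3 hK h1 h2 => ?_⟩
  have hn1 : 0 < n := (le_max_right _ _).trans hn
  have hn' : (0 : ℝ) < n := by exact_mod_cast hn1
  refine hN n ((le_max_left _ _).trans hn) G h3 hK ?_
  have c3 : Fintype.card (Fin 3 × Fin t) = 3 * t := by simp
  have c4 : Fintype.card (Fin 4 × Fin t) = 4 * t := by simp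
  have k1 : ∀ p ∈ (univ : Finset BU), qc (pt p.1.1 p.1.2 t) n G ≤ δ / q := by
    intro p _
    unfold qc
    rw [div_le_iff₀ (by positivity), c3]
    exact h1 p
  have k2 : ∀ τ ∈ (univ : Finset (Fin 4 → Bool)), qc (blow (quadR τ) t) n G ≤ δ / q := by
    intro p _
    unfold qc
    rw [div_le_iff₀ (by positivity), c4]
    exact h2 p
  have s1 := sum_le_sum k1
  have s2 := sum_le_sum k2
  rw [sum_const, card_univ, nsmul_eq_mul] at s1 s2
  have c16 : (Fintype.card (Fin 4 → Bool) : ℝ) = 16 := by simp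
  rw [c16] at s2
  change QQ t n G ≤ δ
  unfold QQ
  have : (Fintype.card BU : ℝ) * (δ / q) + 16 * (δ / q) = δ := by
    rw [← add_mul, ← hq, mul_div_assoc']
    exact mul_div_cancel_left₀ δ hq0.ne'
  linarith

end Pool.Agent.Helper38.TP5
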