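import Pool.Agent.Helper38.TP5.Pat

/-!
# Good three-class patterns
-/

set_option autoImplicit false

open Finset
open scoped Classical

namespace Pool.Agent.Helper38.TP5

open Pool.Agent.N442.LP Pool.Agent.Helper38.TP3 Pool.Agent.Helper38.TP4

/-- The good three-class patterns: (a) transversal triples are edges, and at least two pairs of
classes are full; (b) no pair of classes is full, and transversal triples are not edges; (c) no pair is
full, transversal triples are edges, every class is joined to at least one of the two others, and no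
class sends arcs to both others. -/
def Good (D : Fin 3 → Fin 3 → Bool) (τ : Bool) : Prop :=
  (τ = true ∧ ∃ i j l, i ≠ j ∧ i ≠ l ∧ j ≠ l ∧ D i j = true ∧ D j i = true ∧ D i l = true ∧
    D l i = true) ∨
  ((∀ i j, i ≠ j → D i j = true → D j i = false) ∧ (τ = false ∨
    ∀ i j l, i ≠ j → i ≠ l → j ≠ l → (D i j = true ∨ D j i = true ∨ D i l = true ∨ D l i = true) ∧
      (D i j = true → D i l = false)))

/-- the same in terms of seven propositions -/
def GoodE (d01 d10 d02 d20 d12 d21 t : Prop) : Prop :=
  (t ∧ ((d01 ∧ d10 ∧ d02 ∧ d20) ∨ (d01 ∧ d10 ∧ d12 ∧ d21) ∨ (d02 ∧ d20 ∧ d12 ∧ d21))) ∨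
  (¬ (d01 ∧ d10) ∧ ¬ (d02 ∧ d20) ∧ ¬ (d12 ∧ d21) ∧ (¬ t ∨
    ((d01 ∨ d10 ∨ d02 ∨ d20) ∧ (d01 ∨ d10 ∨ d12 ∨ d21) ∧ (d02 ∨ d20 ∨ d12 ∨ d21) ∧
      ¬ (d01 ∧ d02) ∧ ¬ (d10 ∧ d12) ∧ ¬ (d20 ∧ d21))))

theorem good_iff (D : Fin 3 → Fin 3 → Bool) (τ : Bool) : Good D τ ↔
    GoodE (D 0 1 = true) (D 1 0 = true) (D 0 2 = true) (D 2 0 = true) (D 1 2 = true) (D 2 1 = true)
      (τ = true) := by
  constructor
  · rintro (⟨ht, i, j, l, hij, hil, hjl, h1, h2, h3, h4⟩ | ⟨h1, h2⟩)
    · refine Or.inl ⟨ht, ?_⟩
      fin_cases i <;> fin_cases j <;> fin_cases l <;>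
        first
        | exact absurd rfl hij
        | exact absurd rfl hil
        | exact absurd rfl hjl
        | (simp only [Fin.zero_eta, Fin.mk_one, Fin.reduceFinMk, Fin.isValue] at h1 h2 h3 h4
           simp only [h1, h2, h3, h4]
           simp)
    · have f01 := h1 0 1 (by decide)
      have f02 := h1 0 2 (by decide)
      have f12 := h1 1 2 (by decide)
      refine Or.inr ⟨?_, ?_, ?_, ?_⟩
      · rintro ⟨a, b⟩
        rw [f01 a] at b
        exact absurd b (by decide)
      · rintro ⟨a, b⟩
        rw [f02 a] at b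
        exact absurd b (by decide)
      · rintro ⟨a, b⟩
        rw [f12 a] at b
        exact absurd b (by decide)
      · rcases h2 with h2 | h2
        · exact Or.inl (by rw [h2]; decide)
        · have g0 := h2 0 1 2 (by decide) (by decide) (by decide)
          have g1 := h2 1 0 2 (by decide) (by decide) (by decide)
          have g2 := h2 2 0 1 (by decide) (by decide) (by decide)
          refine Or.inr ⟨g0.1, ?_, ?_, ?_, ?_, ?_⟩
          · tauto
          · tauto
          · rintro ⟨a, b⟩
            rw [g0.2 a] at b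
            exact absurd b (by decide)
          · rintro ⟨a, b⟩
            rw [g1.2 a] at b
            exact absurd b (by decide)
          · rintro ⟨a, b⟩
            rw [g2.2 a] at b
            exact absurd b (by decide)
  · rintro (⟨ht, h | h | h⟩ | ⟨h1, h2, h3, h4⟩)
    · exact Or.inl ⟨ht, 0, 1, 2, by decide, by decide, by decide, h.1, h.2.1, h.2.2.1, h.2.2.2⟩
    · exact Or.inl ⟨ht, 1, 0, 2, by decide, by decide, by decide, h.2.1, h.1, h.2.2.1, h.2.2.2⟩
    · exact Or.inl ⟨ht, 2, 0, 1, by decide, by decide, by decide, h.2.1, h.1, h.2.2.2, h.2.2.1⟩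
    · refine Or.inr ⟨?_, ?_⟩
      · intro i j hij hd
        by_contra hn
        rw [Bool.not_eq_false] at hn
        fin_cases i <;> fin_cases j <;>
          first
          | exact absurd rfl hij
          | exact h1 ⟨hd, hn⟩
          | exact h1 ⟨hn, hd⟩
          | exact h2 ⟨hd, hn⟩
          | exact h2 ⟨hn, hd⟩
          | exact h3 ⟨hd, hn⟩
          | exact h3 ⟨hn, hd⟩
      · rcases h4 with h4 | ⟨g0, g1, g2, k0, k1, k2⟩
        · exact Or.inl (by simpa using h4)
        · refine Or.inr fun i j l hij hil hjl => ⟨?_, fun hd => ?_⟩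
          · fin_cases i <;> fin_cases j <;> fin_cases l <;>
              first
              | exact absurd rfl hij
              | exact absurd rfl hil
              | exact absurd rfl hjl
              | (simp only [Fin.zero_eta, Fin.mk_one, Fin.reduceFinMk, Fin.isValue]; tauto)
          · by_contra hn
            rw [Bool.not_eq_false] at hn
            fin_cases i <;> fin_cases j <;> fin_cases l <;>
              first
              | exact absurd rfl hij
              | exact absurd rfl hil
              | exact absurd rfl hjl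
              | exact k0 ⟨hd, hn⟩
              | exact k0 ⟨hn, hd⟩
              | exact k1 ⟨hd, hn⟩
              | exact k1 ⟨hn, hd⟩
              | exact k2 ⟨hd, hn⟩
              | exact k2 ⟨hn, hd⟩

end Pool.Agent.Helper38.TP5
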