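import Pool.Agent.Helper38.TP5.Good

/-!
# Consequences of the goodness of a three-class pattern
-/

set_option autoImplicit false

namespace Pool.Agent.Helper38.TP5

variable {d01 d10 d02 d20 d12 d21 t : Prop}

theorem GoodE.full (h : GoodE d01 d10 d02 d20 d12 d21 t) (h1 : d01) (h2 : d10) :
    t ∧ ((d02 ∧ d20) ∨ (d12 ∧ d21)) := by
  rcases h with ⟨ht, h | h | h⟩ | ⟨h3, -⟩
  · exact ⟨ht, Or.inl ⟨h.2.2.1, h.2.2.2⟩⟩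
  · exact ⟨ht, Or.inr ⟨h.2.2.1, h.2.2.2⟩⟩
  · exact ⟨ht, Or.inl ⟨h.1, h.2.1⟩⟩
  · exact absurd ⟨h1, h2⟩ h3

theorem GoodE.core (h : GoodE d01 d10 d02 d20 d12 d21 t) (f1 : ¬ (d01 ∧ d10)) (f2 : ¬ (d02 ∧ d20))
    (ht : t) : (d01 ∨ d10 ∨ d02 ∨ d20) ∧ ¬ (d01 ∧ d02) := by
  rcases h with ⟨-, h | h | h⟩ | ⟨-, -, -, h4⟩
  · exact absurd ⟨h.1, h.2.1⟩ f1
  · exact absurd ⟨h.1, h.2.1⟩ f1
  · exact absurd ⟨h.1, h.2.1⟩ f2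
  · rcases h4 with h4 | h4
    · exact absurd ht h4
    · exact ⟨h4.1, h4.2.2.2.1⟩

end Pool.Agent.Helper38.TP5
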