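import Pool.Agent.Helper38.TP5.Good2
import Pool.Agent.Helper38.TP5.Blow

/-!
# The local theorem
-/

set_option autoImplicit false

open Finset
open scoped Classical

namespace Pool.Agent.Helper38.TP5

open Pool.Agent.N442.LP Pool.Agent.Helper38.TP3 Pool.Agent.Helper38.TP4

/-! ### The local theorem -/

/-- the index set of the bad pieces -/
def BU : Type := {p : (Fin 3 → Fin 3 → Bool) × Bool // ¬ Good p.1 p.2}

noncomputable instance : Fintype BU := by unfold BU; infer_instance

/-- a copy of a bad piece or of a four-class 3-graph -/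
def BB (t k T n : ℕ) (G : Finset (Finset (Fin n))) (y : Fin k → Fin T → Fin n) : Prop :=
  BC (fun p : BU => pt p.1.1 p.1.2 t) k T n G y ∨
    BC (fun τ : Fin 4 → Bool => blow (quadR τ) t) k T n G y

/-- the density of the copies -/
noncomputable def QQ (t n : ℕ) (G : Finset (Finset (Fin n))) : ℝ :=
  ∑ p : BU, qc (pt p.1.1 p.1.2 t) n G + ∑ τ : Fin 4 → Bool, qc (blow (quadR τ) t) n G

theorem locU {m : ℕ} (hm : 3 ≤ m) (k t : ℕ) (hk : 0 < k) : ∃ T : ℕ, 0 < T ∧
    ∀ (n : ℕ) (G : Finset (Finset (Fin n))), KFree m G →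
    ∀ (X : Finset (Finset (Fin k))) (y : Fin k → Fin T → Fin n),
    (∀ f : Fin k → Fin T, (fun i => y i (f i)) ∈ SX G X) → (∀ i, Function.Injective (y i)) →
    rho (m - 1) * (k : ℝ) ^ 3 < ((QT X).card : ℝ) → BB t k T n G y := by
  obtain ⟨T', hT, h⟩ := loc m k t
  refine ⟨T', by omega, fun n G hK X y hsel hinj hX => ?_⟩
  obtain ⟨P, z, hP, hz, hI, hR, hPX⟩ := h n G hK X y hsel hinj
  have hcap := fun A S hAS h1 h2 => cap_of_real (by omega) hK hP hR hI A S hAS h1 h2
  by_contra hno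
  unfold BB at hno
  push Not at hno
  obtain ⟨hno1, hno2⟩ := hno
  have key : ∀ i j l : Fin k, i ≠ j → i ≠ l → j ≠ l →
      GoodE (P i i j) (P j j i) (P i i l) (P l l i) (P j j l) (P l l j) (P i j l) := by
    intro i j l hij hil hjl
    have hg : Good (fun a b => decide (P (![i, j, l] a) (![i, j, l] a) (![i, j, l] b)))
        (decide (P (![i, j, l] 0) (![i, j, l] 1) (![i, j, l] 2))) := by
      by_contra hb
      exact hno1 ⟨⟨(_, _), hb⟩, (pos' hP hR hI (inj3 hij hil hjl)).comp hz⟩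
    rw [good_iff] at hg
    simp only [decide_eq_true_eq] at hg
    exact hg
  have hU : Unions P := by
    refine ⟨hP, ?_, ?_, ?_, ?_⟩
    · intro i j c hij hic hjc hf
      exact (key i j c hij hic hjc).full hf.1 hf.2
    · intro a b c hab hac hbc f1 f2 f3 hp u1 u2
      rcases ((key a b c hab hac hbc).core f1 f2 hp).1 with h | h | h | h
      · exact u1.1 h
      · exact u1.2 h
      · exact u2.1 h
      · exact u2.2 h
    · intro a b c hab hac hbc f1 f2 f3 hp u1 u2
      exact ((key a b c hab hac hbc).core f1 f2 hp).2 ⟨u1, u2⟩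
    · intro a b c d hab hac had hbc hbd hcd p1 p2 p3 p4 n1 n2 n3 n4 f1 f2
      obtain ⟨τ, hτ⟩ := quad_pos hP hR hI (inj4 hab hac had hbc hbd hcd)
        (all4 (Q := fun i => P (![a, b, c, d] i) (![a, b, c, d] i) (![a, b, c, d] (i + 1)))
          p1 p2 p3 p4)
        (all4 (Q := fun i => ¬ P (![a, b, c, d] (i + 1)) (![a, b, c, d] (i + 1)) (![a, b, c, d] i))
          n1 n2 n3 n4)
        (all4 (Q := fun i => ¬ P (![a, b, c, d] i) (![a, b, c, d] i) (![a, b, c, d] (i + 2)))
          f1.1 f2.1 f1.2 f2.2)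
      exact hno2 ⟨τ, hτ.comp hz⟩
  have hb := hU.bound (m - 1) (by omega) hcap (fun _ => 1 / (k : ℝ)) (smp_uniform hk)
  exact absurd hX (not_lt.mpr (rho_le (by omega) (T_uniform hPX) hb))

end Pool.Agent.Helper38.TP5
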