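import Pool.Agent.Helper38.TP4.NoPt
import Pool.Graph.R_pool_sql_team_seeded_63374d34.N442.K4.Loc

/-!
# Patterns which are disjoint unions of Fon-der-Flaass patterns

Two parts `i ≠ j` are full if `P i i j` and `P j j i`. If a full pair has with every third part a second
full pair and all transversals, then the parts fall into blocks such that parts of different blocks
are full and all triples that meet two blocks belong to the pattern. If moreover the pattern is, in every
block, contained in a Fon-der-Flaass pattern, the density of the missing triples of a block of weight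
`y` is at least `4 y³ / ω²`, where `ω = 3` if there is an arc in the block, and `ω = 2` if there is none.
The sum of the numbers `ω` is the size of a clique.
-/

set_option autoImplicit false

open Finset
open scoped Classical

namespace Pool.Agent.Helper38.TP5

open Pool.Agent.N442.LP Pool.Agent.Helper38.TP3 Pool.Agent.Helper38.TP4

variable {V : Type}

/-- both kinds of triples with vertices in the parts `i` and `j` belong to the pattern -/
def Full (P : V → V → V → Prop) (i j : V) : Prop := P i i j ∧ P j j i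

theorem Full.symm {P : V → V → V → Prop} {i j : V} (h : Full P i j) : Full P j i := ⟨h.2, h.1⟩

/-- The conditions on the triples of parts. -/
structure Unions (P : V → V → V → Prop) : Prop where
  pat : IsPat P
  full : ∀ i j c, i ≠ j → i ≠ c → j ≠ c → Full P i j → P i j c ∧ (Full P i c ∨ Full P j c)
  far : ∀ a b c, a ≠ b → a ≠ c → b ≠ c → ¬ Full P a b → ¬ Full P a c → ¬ Full P b c → P a b c →
    Far P a b → Far P a c → False
  out : ∀ a b c, a ≠ b → a ≠ c → b ≠ c → ¬ Full P a b → ¬ Full P a c → ¬ Full P b c → P a b c →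
    P a a b → P a a c → False
  cyc : ∀ a b c d, a ≠ b → a ≠ c → a ≠ d → b ≠ c → b ≠ d → c ≠ d → P a a b → P b b c → P c c d →
    P d d a → ¬ P b b a → ¬ P c c b → ¬ P d d c → ¬ P a a d → Far P a c → Far P b d → False

variable {P : V → V → V → Prop}

/-- the same block -/
def Blk (P : V → V → V → Prop) (i j : V) : Prop := i = j ∨ ¬ Full P i j

theorem Unions.equiv (h : Unions P) : Equivalence (Blk P) := by
  refine ⟨fun i => Or.inl rfl, ?_, ?_⟩
  · rintro i j (rfl | hij)
    · exact Or.inl rfl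
    · exact Or.inr fun hf => hij hf.symm
  · rintro i j c (rfl | hij) (rfl | hjc)
    · exact Or.inl rfl
    · exact Or.inr hjc
    · exact Or.inr hij
    · by_cases hic : i = c
      · exact Or.inl hic
      by_cases e1 : i = j
      · subst e1
        exact Or.inr hjc
      by_cases e2 : j = c
      · subst e2
        exact Or.inr hij
      refine Or.inr fun hf => ?_
      rcases (h.full i c j hic e1 (fun e => e2 e.symm) hf).2 with h1 | h1
      · exact hij h1
      · exact hjc h1.symm

/-- the blocks -/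
def Unions.std (h : Unions P) : Setoid V := ⟨Blk P, h.equiv⟩

/-- triples which meet two blocks -/
theorem Unions.cross (h : Unions P) {a b c : V} (hn : ¬ (Blk P a b ∧ Blk P a c)) : P a b c := by
  have key : ∀ x y, ¬ Blk P x y → x ≠ y ∧ Full P x y := by
    intro x y hxy
    unfold Blk at hxy
    push Not at hxy
    exact hxy
  by_cases hab : a = b
  · subst hab
    have h1 : ¬ Blk P a c := fun h2 => hn ⟨Or.inl rfl, h2⟩
    exact (key _ _ h1).2.1
  by_cases hac : a = c
  · subst hac
    have h1 : ¬ Blk P a b := fun h2 => hn ⟨h2, Or.inl rfl⟩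
    exact h.pat.s23 (key _ _ h1).2.1
  by_cases hbc : b = c
  · subst hbc
    have h1 : ¬ Blk P a b := fun h2 => hn ⟨h2, h2⟩
    exact h.pat.s12 (h.pat.s23 (key _ _ h1).2.2)
  by_cases h1 : Blk P a b
  · have h2 : ¬ Blk P a c := fun h2 => hn ⟨h1, h2⟩
    exact h.pat.s23 (h.full a c b hac hab (fun e => hbc e.symm) (key _ _ h2).2).1
  · exact (h.full a b c hab hac hbc (key _ _ h1).2).1

/-- the pattern inside a block `p` -/
def ins (P : V → V → V → Prop) (p : V → Prop) (a b c : V) : Prop := P a b c ∧ p a ∧ p b ∧ p c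

theorem ins_pat (hP : IsPat P) (p : V → Prop) : IsPat (ins P p) :=
  ⟨fun h => ⟨hP.s12 h.1, h.2.2.1, h.2.1, h.2.2.2⟩, fun h => ⟨hP.s23 h.1, h.2.1, h.2.2.2, h.2.2.1⟩,
    fun a h => hP.irr a h.1⟩

variable [Fintype V]

/-- the homogeneous form of the theorem for one block with an arc -/
theorem Unions.arc (h : Unions P) (p : V → Prop) (hp : ∀ a b, p a → p b → Blk P a b)
    {x : V → ℝ} (hx : ∀ a, 0 ≤ x a) :
    4 * (∑ a, x a) ^ 3 ≤ 9 * ((∑ a, x a) ^ 3 - T (ind (ins P p)) x x x) := by
  set Y := ∑ a, x a with hY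
  have hY0 : 0 ≤ Y := sum_nonneg fun a _ => hx a
  rcases eq_or_lt_of_le hY0 with h0 | h0
  · have hz : ∀ a, x a = 0 := by
      intro a
      exact (sum_eq_zero_iff_of_nonneg (fun a _ => hx a)).mp h0.symm a (mem_univ a)
    have : T (ind (ins P p)) x x x = 0 := by
      unfold T
      refine sum_eq_zero fun a _ => sum_eq_zero fun b _ => sum_eq_zero fun c _ => ?_
      rw [hz a]; ring
    rw [this, ← h0]
    norm_num
  have nf : ∀ a b, a ≠ b → p a → p b → ¬ Full P a b := by
    intro a b hab ha hb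
    rcases hp a b ha hb with h1 | h1
    · exact absurd h1 hab
    · exact h1
  have hO : ∀ i j, ins P p i i j → ¬ ins P p j j i := by
    intro i j h1 h2
    have hij : i ≠ j := by
      rintro rfl
      exact h.pat.irr _ h1.1
    exact nf i j hij h1.2.1 h1.2.2.2 ⟨h1.1, h2.1⟩
  have neq : ∀ {a b}, ins P p a a b → a ≠ b := by
    rintro a b h1 rfl
    exact h.pat.irr _ h1.1
  have hb := Pool.Agent.N442.K4.fdf_bound (ins_pat h.pat p) hO
    (by
      intro a b c hbc h1 h2 h3
      have hab := neq h1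
      have hac := neq h2
      exact h.out a b c hab hac hbc (nf _ _ hab h3.2.1 h3.2.2.1) (nf _ _ hac h3.2.1 h3.2.2.2)
        (nf _ _ hbc h3.2.2.1 h3.2.2.2) h3.1 h1.1 h2.1)
    (by
      intro a b c u1 u2 u3 u4 u5
      have hab : a ≠ b := by
        rintro rfl
        exact u3 u5
      have hac : a ≠ c := by
        rintro rfl
        exact u1 ((ins_pat h.pat p).s23 u5)
      have hbc : b ≠ c := by
        rintro rfl
        exact u2 ((ins_pat h.pat p).s23 ((ins_pat h.pat p).s12 u5))
      obtain ⟨v0, va, vb, vc⟩ := u5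
      exact h.far a b c hab hac hbc (nf _ _ hab va vb) (nf _ _ hac va vc) (nf _ _ hbc vb vc) v0
        ⟨fun e => u1 ⟨e, va, va, vb⟩, fun e => u2 ⟨e, vb, vb, va⟩⟩
        ⟨fun e => u3 ⟨e, va, va, vc⟩, fun e => u4 ⟨e, vc, vc, va⟩⟩)
    (by
      intro a b c d u1 u2 u3 u4
      by_contra hcon
      push Not at hcon
      obtain ⟨v1, v2, v3, v4⟩ := hcon
      have pa := u1.2.1
      have pb := u2.2.1
      have pc := u3.2.1
      have pd := u4.2.1
      have hab := neq u1
      have hbc := neq u2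
      have hcd := neq u3
      have hda := neq u4
      have hac : a ≠ c := by
        rintro rfl
        exact hO _ _ u1 u2
      have hbd : b ≠ d := by
        rintro rfl
        exact hO _ _ u2 u3
      exact h.cyc a b c d hab hac hda.symm hbc hbd hcd u1.1 u2.1 u3.1 u4.1
        (fun e => hO _ _ u1 ⟨e, pb, pb, pa⟩) (fun e => hO _ _ u2 ⟨e, pc, pc, pb⟩)
        (fun e => hO _ _ u3 ⟨e, pd, pd, pc⟩) (fun e => hO _ _ u4 ⟨e, pa, pa, pd⟩)
        ⟨fun e => v1 ⟨e, pa, pa, pc⟩, fun e => v2 ⟨e, pc, pc, pa⟩⟩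
        ⟨fun e => v3 ⟨e, pb, pb, pd⟩, fun e => v4 ⟨e, pd, pd, pb⟩⟩)
    (fun a => x a / Y) ⟨fun a => div_nonneg (hx a) hY0, by rw [← sum_div, ← hY]; exact div_self h0.ne'⟩
  have e1 : T (ind (ins P p)) (fun a => x a / Y) (fun a => x a / Y) (fun a => x a / Y) =
      T (ind (ins P p)) x x x / Y ^ 3 := by
    unfold T
    rw [sum_div]
    refine sum_congr rfl fun a _ => ?_
    rw [sum_div]
    refine sum_congr rfl fun b _ => ?_
    rw [sum_div]
    refine sum_congr rfl fun c _ => ?_
    field_simp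
  rw [e1] at hb
  have h3 : (0 : ℝ) < Y ^ 3 := by positivity
  have e2 : Y ^ 3 * (((3 : ℕ) : ℝ) ^ 2 * (1 - T (ind (ins P p)) x x x / Y ^ 3)) =
      9 * (Y ^ 3 - T (ind (ins P p)) x x x) := by
    field_simp
    norm_num
    ring
  have := mul_le_mul_of_nonneg_left hb h3.le
  rw [e2] at this
  linarith

/-- one block without arcs -/
theorem Unions.noarc (h : Unions P) (p : V → Prop) (hp : ∀ a b, p a → p b → Blk P a b)
    (hno : ∀ a b, p a → p b → ¬ P a a b) (x : V → ℝ) : T (ind (ins P p)) x x x = 0 := by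
  unfold T
  refine sum_eq_zero fun a _ => sum_eq_zero fun b _ => sum_eq_zero fun c _ => ?_
  have nf : ∀ a b, a ≠ b → p a → p b → ¬ Full P a b := by
    intro a b hab ha hb
    rcases hp a b ha hb with h1 | h1
    · exact absurd h1 hab
    · exact h1
  rw [ind_zero]
  · ring
  rintro ⟨v0, va, vb, vc⟩
  have hab : a ≠ b := by
    rintro rfl
    exact hno _ _ va vc v0
  have hac : a ≠ c := by
    rintro rfl
    exact hno _ _ va vb (h.pat.s23 v0)
  have hbc : b ≠ c := by
    rintro rfl
    exact hno _ _ vb va (h.pat.s23 (h.pat.s12 v0))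
  exact h.far a b c hab hac hbc (nf _ _ hab va vb) (nf _ _ hac va vc) (nf _ _ hbc vb vc) v0
    ⟨hno _ _ va vb, hno _ _ vb va⟩ ⟨hno _ _ va vc, hno _ _ vc va⟩

theorem tangent {y s ω : ℝ} (hy : 0 ≤ y) (hs : 0 < s) (hω : 0 < ω) :
    3 * y / s ^ 2 - 2 * ω / s ^ 3 ≤ y ^ 3 / ω ^ 2 := by
  have h1 : y ^ 3 / ω ^ 2 - (3 * y / s ^ 2 - 2 * ω / s ^ 3) =
      (y * s - ω) ^ 2 * (y * s + 2 * ω) / (ω ^ 2 * s ^ 3) := by
    field_simp
    ring
  have h2 : 0 ≤ (y * s - ω) ^ 2 * (y * s + 2 * ω) / (ω ^ 2 * s ^ 3) := by positivity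
  linarith

/-- **Disjoint unions of Fon-der-Flaass patterns.** -/
theorem Unions.bound (h : Unions P) (L : ℕ) (hL : 0 < L)
    (hcap : ∀ A S : Finset V, A ⊆ S →
      (∀ a ∈ S, ∀ b ∈ S, ∀ c ∈ S, a ≠ b → b ≠ c → a ≠ c → P a b c) →
      (∀ u ∈ A, ∀ v ∈ S, u ≠ v → P u u v) → A.card + S.card ≤ L)
    (w : V → ℝ) (hw : Smp w) : 4 ≤ (L : ℝ) ^ 2 * (1 - T (ind P) w w w) := by
  let st : Setoid V := h.std
  let Q := Quotient st
  let q : V → Q := fun v => Quotient.mk st v
  have hq : ∀ a b, q a = q b ↔ Blk P a b := fun a b => Quotient.eq (r := st)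
  have hrep : ∀ κ : Q, ∃ i, q i = κ := fun κ => Quotient.exists_rep κ
  -- a representative pair
  have hpair : ∀ κ : Q, ∃ i j, q i = κ ∧ q j = κ ∧ ((∃ a b, q a = κ ∧ q b = κ ∧ P a a b) → P i i j) ∧
      ((¬ ∃ a b, q a = κ ∧ q b = κ ∧ P a a b) → i = j) := by
    intro κ
    by_cases hk : ∃ a b, q a = κ ∧ q b = κ ∧ P a a b
    · obtain ⟨a, b, h1, h2, h3⟩ := hk
      exact ⟨a, b, h1, h2, fun _ => h3, fun hn => absurd ⟨a, b, h1, h2, h3⟩ hn⟩
    · obtain ⟨i, hi⟩ := hrep κ
      exact ⟨i, i, hi, hi, fun hh => absurd hh hk, fun _ => rfl⟩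
  choose i j hi hj hij1 hij2 using hpair
  let ω : Q → ℕ := fun κ => if ∃ a b, q a = κ ∧ q b = κ ∧ P a a b then 3 else 2
  have hωpos : ∀ κ, 0 < ω κ := by
    intro κ
    simp only [ω]
    split_ifs <;> norm_num
  -- the clique
  have hW : ∑ κ, ω κ ≤ L := by
    have hii : Function.Injective i := fun κ κ' e => by rw [← hi κ, ← hi κ', e]
    have hA : (univ.image i).card = Fintype.card Q := by
      rw [card_image_of_injective _ hii, card_univ]
    have hc := hcap (univ.image i) (univ.image i ∪ univ.image j) subset_union_left (by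
      intro a ha b hb c hc hab hbc hac
      apply h.cross
      rintro ⟨e1, e2⟩
      rw [← hq] at e1 e2
      have hin : ∀ v ∈ univ.image i ∪ univ.image j, v = i (q v) ∨ v = j (q v) := by
        intro v hv
        rw [mem_union, mem_image, mem_image] at hv
        rcases hv with ⟨κ, -, rfl⟩ | ⟨κ, -, rfl⟩
        · exact Or.inl (by rw [hi])
        · exact Or.inr (by rw [hj])
      rcases hin a ha with h1 | h1 <;> rcases hin b hb with h2 | h2 <;> rcases hin c hc with h3 | h3
      · exact hab (by rw [h1, h2, e1])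
      · exact hab (by rw [h1, h2, e1])
      · exact hac (by rw [h1, h3, e2])
      · exact hbc (by rw [h2, h3, ← e1, ← e2])
      · exact hbc (by rw [h2, h3, ← e1, ← e2])
      · exact hac (by rw [h1, h3, e2])
      · exact hab (by rw [h1, h2, e1])
      · exact hab (by rw [h1, h2, e1])) (by
      intro u hu v hv huv
      obtain ⟨κ, -, rfl⟩ := mem_image.mp hu
      rw [mem_union, mem_image, mem_image] at hv
      by_cases hb : Blk P (i κ) v
      · rcases hv with ⟨κ', -, rfl⟩ | ⟨κ', -, rfl⟩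
        · exfalso
          have := (hq _ _).mpr hb
          rw [hi, hi] at this
          exact huv (by rw [this])
        · have e := (hq _ _).mpr hb
          rw [hi, hj] at e
          subst e
          by_cases hk : ∃ a b, q a = κ ∧ q b = κ ∧ P a a b
          · exact hij1 κ hk
          · exact absurd (hij2 κ hk) huv
      · exact h.cross fun hh => hb hh.2)
    have hun : (univ.image i ∪ univ.image j).card = Fintype.card Q +
        (univ.filter fun κ => ∃ a b, q a = κ ∧ q b = κ ∧ P a a b).card := by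
      have e1 : univ.image i ∪ univ.image j = univ.image i ∪
          (univ.filter fun κ => ∃ a b, q a = κ ∧ q b = κ ∧ P a a b).image j := by
        ext v
        rw [mem_union, mem_union, mem_image, mem_image, mem_image]
        constructor
        · rintro (⟨κ, -, rfl⟩ | ⟨κ, -, rfl⟩)
          · exact Or.inl ⟨κ, mem_univ _, rfl⟩
          · by_cases hk : ∃ a b, q a = κ ∧ q b = κ ∧ P a a b
            · exact Or.inr ⟨κ, mem_filter.mpr ⟨mem_univ _, hk⟩, rfl⟩
            · exact Or.inl ⟨κ, mem_univ _, hij2 κ hk⟩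
        · rintro (⟨κ, -, rfl⟩ | ⟨κ, -, rfl⟩)
          · exact Or.inl ⟨κ, mem_univ _, rfl⟩
          · exact Or.inr ⟨κ, mem_univ _, rfl⟩
      have hjj : Function.Injective j := fun κ κ' e => by rw [← hj κ, ← hj κ', e]
      rw [e1, card_union_of_disjoint, hA, card_image_of_injective _ hjj]
      rw [disjoint_left]
      rintro v hv hv'
      obtain ⟨κ, -, rfl⟩ := mem_image.mp hv
      obtain ⟨κ', hk', e⟩ := mem_image.mp hv'
      have : κ' = κ := by rw [← hj κ', ← hi κ, e]
      subst this
      have h1 := hij1 κ' (mem_filter.mp hk').2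
      rw [e] at h1
      exact h.pat.irr _ h1
    have hsum : ∑ κ, ω κ = 2 * Fintype.card Q +
        (univ.filter fun κ => ∃ a b, q a = κ ∧ q b = κ ∧ P a a b).card := by
      have : ∀ κ, ω κ = 2 + if (∃ a b, q a = κ ∧ q b = κ ∧ P a a b) then 1 else 0 := by
        intro κ
        simp only [ω]
        split_ifs <;> rfl
      simp only [this, sum_add_distrib, sum_const, card_univ, smul_eq_mul, card_filter]
      ring
    rw [hA, hun] at hc
    omega
  -- the weights of the blocks
  let Y : Q → ℝ := fun κ => ∑ a, if q a = κ then w a else 0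
  have hY0 : ∀ κ, 0 ≤ Y κ := fun κ => sum_nonneg fun a _ => by
    split_ifs
    · exact hw.1 a
    · exact le_rfl
  have hYsum : ∑ κ, Y κ = 1 := by
    simp only [Y]
    rw [sum_comm, ← hw.2]
    refine sum_congr rfl fun a _ => ?_
    rw [sum_eq_single (q a)]
    · rw [if_pos rfl]
    · intro κ _ hκ
      rw [if_neg fun e => hκ e.symm]
    · intro hh
      exact absurd (mem_univ _) hh
  have hTκ : ∀ κ, 4 * Y κ ^ 3 ≤ (ω κ : ℝ) ^ 2 *
      (Y κ ^ 3 - T (ind (ins P fun a => q a = κ)) w w w) := by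
    intro κ
    have hp : ∀ a b, q a = κ → q b = κ → Blk P a b := fun a b ha hb => (hq a b).mp (ha.trans hb.symm)
    have hTw : T (ind (ins P fun a => q a = κ)) w w w = T (ind (ins P fun a => q a = κ))
        (fun a => if q a = κ then w a else 0) (fun a => if q a = κ then w a else 0)
        (fun a => if q a = κ then w a else 0) := by
      unfold T
      refine sum_congr rfl fun a _ => sum_congr rfl fun b _ => sum_congr rfl fun c _ => ?_
      by_cases hh : ins P (fun a => q a = κ) a b c
      · have g1 : q a = κ := hh.2.1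
        have g2 : q b = κ := hh.2.2.1
        have g3 : q c = κ := hh.2.2.2
        beta_reduce
        rw [if_pos g1, if_pos g2, if_pos g3]
      · rw [ind_zero hh]; ring
    by_cases hk : ∃ a b, q a = κ ∧ q b = κ ∧ P a a b
    · have h3 : ω κ = 3 := if_pos hk
      rw [h3, hTw]
      have := h.arc (fun a => q a = κ) hp (x := fun a => if q a = κ then w a else 0) (fun a => by
        split_ifs
        · exact hw.1 a
        · exact le_rfl)
      refine this.trans (le_of_eq ?_)
      simp only [Y]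
      norm_num
    · have h2 : ω κ = 2 := if_neg hk
      rw [h2, h.noarc (fun a => q a = κ) hp (fun a b ha hb hP => hk ⟨a, b, ha, hb, hP⟩) w]
      norm_num
  -- the decomposition of the form
  have hdec : 1 - T (ind P) w w w = ∑ κ, (Y κ ^ 3 - T (ind (ins P fun a => q a = κ)) w w w) := by
    have e1 : (1 : ℝ) = ∑ a, ∑ b, ∑ c, w a * w b * w c := by
      have : ∑ a, ∑ b, ∑ c, w a * w b * w c = (∑ a, w a) * (∑ b, w b) * ∑ c, w c := by
        rw [sum_mul_sum, sum_mul]
        refine sum_congr rfl fun a _ => ?_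
        rw [sum_mul]
        refine sum_congr rfl fun b _ => ?_
        rw [mul_sum]
      rw [this, hw.2]; norm_num
    have e2 : ∀ κ, Y κ ^ 3 = ∑ a, ∑ b, ∑ c,
        (if q a = κ ∧ q b = κ ∧ q c = κ then w a * w b * w c else 0) := by
      intro κ
      have : Y κ ^ 3 = Y κ * Y κ * Y κ := by ring
      rw [this]
      simp only [Y]
      rw [sum_mul_sum, sum_mul]
      refine sum_congr rfl fun a _ => ?_
      rw [sum_mul]
      refine sum_congr rfl fun b _ => ?_
      rw [mul_sum]
      refine sum_congr rfl fun c _ => ?_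
      by_cases h1 : q a = κ <;> by_cases h2 : q b = κ <;> by_cases h3 : q c = κ <;> simp [h1, h2, h3]
    have e3 : ∑ κ, (Y κ ^ 3 - T (ind (ins P fun a => q a = κ)) w w w) = ∑ a, ∑ b, ∑ c, ∑ κ,
        ((if q a = κ ∧ q b = κ ∧ q c = κ then w a * w b * w c else 0) -
          ind (ins P fun a => q a = κ) a b c * w a * w b * w c) := by
      rw [sum_congr rfl fun κ _ => by rw [e2 κ, T, ← sum_sub_distrib], sum_comm]
      refine sum_congr rfl fun a _ => ?_
      rw [sum_congr rfl fun κ _ => by rw [← sum_sub_distrib], sum_comm]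
      refine sum_congr rfl fun b _ => ?_
      rw [sum_congr rfl fun κ _ => by rw [← sum_sub_distrib], sum_comm]
    rw [e3]
    conv_lhs => rw [e1]
    unfold T
    rw [← sum_sub_distrib]
    refine sum_congr rfl fun a _ => ?_
    rw [← sum_sub_distrib]
    refine sum_congr rfl fun b _ => ?_
    rw [← sum_sub_distrib]
    refine sum_congr rfl fun c _ => ?_
    by_cases hs : q a = q b ∧ q a = q c
    · rw [sum_eq_single (q a)]
      · rw [if_pos ⟨rfl, hs.1.symm, hs.2.symm⟩]
        congr 1
        unfold ind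
        by_cases hP : P a b c
        · rw [if_pos hP, if_pos ⟨hP, rfl, hs.1.symm, hs.2.symm⟩]
        · rw [if_neg hP, if_neg fun hh => hP hh.1]
      · intro κ _ hκ
        rw [if_neg fun hh => hκ hh.1.symm, ind_zero fun hh => hκ hh.2.1.symm]
        ring
      · intro hh
        exact absurd (mem_univ _) hh
    · rw [sum_eq_zero]
      · have : P a b c := h.cross fun hh => hs ⟨(hq _ _).mpr hh.1, (hq _ _).mpr hh.2⟩
        rw [ind_one this]; ring
      · intro κ _
        have h1 : ¬ (q a = κ ∧ q b = κ ∧ q c = κ) := fun hh =>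
          hs ⟨hh.1.trans hh.2.1.symm, hh.1.trans hh.2.2.symm⟩
        rw [if_neg h1, ind_zero fun hh => h1 hh.2]
        ring
  have hWne : (0 : ℝ) < ((∑ κ, ω κ : ℕ) : ℝ) := by
    have hne : Nonempty V := by
      by_contra hn
      rw [not_nonempty_iff] at hn
      have := hw.2
      rw [univ_eq_empty, sum_empty] at this
      exact zero_ne_one this
    obtain ⟨v⟩ := hne
    have h1 : ω (q v) ≤ ∑ κ, ω κ := single_le_sum (fun κ _ => Nat.zero_le _) (mem_univ (q v))
    have h2 := hωpos (q v)
    exact_mod_cast lt_of_lt_of_le h2 h1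
  set W : ℝ := ((∑ κ, ω κ : ℕ) : ℝ) with hWdef
  have hWL : W ≤ L := by
    rw [hWdef]
    exact_mod_cast hW
  have hWc : W = ∑ κ, (ω κ : ℝ) := by rw [hWdef]; push_cast; rfl
  have hsumge : 1 / W ^ 2 ≤ ∑ κ, Y κ ^ 3 / (ω κ : ℝ) ^ 2 := by
    have h1 : ∑ κ, (3 * Y κ / W ^ 2 - 2 * (ω κ : ℝ) / W ^ 3) ≤ ∑ κ, Y κ ^ 3 / (ω κ : ℝ) ^ 2 :=
      sum_le_sum fun κ _ => tangent (hY0 κ) hWne (by exact_mod_cast hωpos κ)
    have h2 : ∑ κ, (3 * Y κ / W ^ 2 - 2 * (ω κ : ℝ) / W ^ 3) = 1 / W ^ 2 := by
      rw [sum_sub_distrib, ← sum_div, ← sum_div, ← mul_sum, ← mul_sum, hYsum, ← hWc]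
      field_simp
      ring
    linarith
  have h3 : 4 / W ^ 2 ≤ 1 - T (ind P) w w w := by
    rw [hdec]
    have : ∀ κ, 4 * (Y κ ^ 3 / (ω κ : ℝ) ^ 2) ≤
        Y κ ^ 3 - T (ind (ins P fun a => q a = κ)) w w w := by
      intro κ
      have hpos : (0 : ℝ) < (ω κ : ℝ) ^ 2 := by
        have : (0 : ℝ) < ω κ := by exact_mod_cast hωpos κ
        positivity
      rw [← mul_div_assoc, div_le_iff₀ hpos]
      linarith [hTκ κ, mul_comm ((ω κ : ℝ) ^ 2) (Y κ ^ 3 - T (ind (ins P fun a => q a = κ)) w w w)]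
    calc 4 / W ^ 2 = 4 * (1 / W ^ 2) := by ring
      _ ≤ 4 * ∑ κ, Y κ ^ 3 / (ω κ : ℝ) ^ 2 := by linarith
      _ = ∑ κ, 4 * (Y κ ^ 3 / (ω κ : ℝ) ^ 2) := by rw [mul_sum]
      _ ≤ _ := sum_le_sum fun κ _ => this κ
  have hL' : (0 : ℝ) < L := by exact_mod_cast hL
  have h4 : W ^ 2 ≤ (L : ℝ) ^ 2 := by nlinarith
  have h5 : 4 ≤ W ^ 2 * (1 - T (ind P) w w w) := by
    have := mul_le_mul_of_nonneg_left h3 (sq_nonneg W)
    rwa [mul_div_cancel₀] at this
    positivity
  have h6 : 0 ≤ 1 - T (ind P) w w w := le_trans (by positivity) h3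
  nlinarith

end Pool.Agent.Helper38.TP5
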