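import Pool.Agent.Helper38.TP5.Block

/-!
# Turán's constructions have blocks
-/

set_option autoImplicit false

open Finset

namespace Pool.Agent.Helper38.TP5

open Pool.Agent.N442.LP Pool.Agent.N442.LP.Tur Pool.Agent.N442.K4 Pool.Agent.Helper38.TP3
  Pool.Agent.Helper38.TP4

theorem spk4 : ∀ x y z w : Fin 3, ¬ sp x y z → ¬ sp x y w → ¬ sp x z w → ¬ sp y z w → False := by
  decide

theorem sparrow : ∀ a b : Fin 2 → Fin 3, (∀ q, ¬ sp (a 0) (a 1) (b q)) →
    (∀ q, sp (b 0) (b 1) (a q)) → b 0 = a 0 + 1 := by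
  decide

theorem spcyc : ∀ a b c d : Fin 3, b = a + 1 → c = b + 1 → d = c + 1 → a = d + 1 → False := by
  decide

theorem HT_ord {L x y z β : ℕ} (hn : L % 2 = 0 ∨ β ≠ 0) (hx : blk L x = β) (hy : blk L y = β)
    (hz : blk L z = β) : HT L x y z := by
  refine ⟨hx.trans hy.symm, hy.trans hz.symm, ?_⟩
  rcases hn with hn | hn
  · exact Or.inl hn
  · exact Or.inr (Or.inl (by rw [hx]; exact hn))

theorem HT_arrow {L : ℕ} (hL : ¬ (L % 2 = 0)) {a b : Fin 2 → ℕ} (ha : ∀ p, blk L (a p) = 0)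
    (hb : ∀ p, blk L (b p) = 0) (h1 : ∀ q, ¬ HT L (a 0) (a 1) (b q))
    (h2 : ∀ q, HT L (b 0) (b 1) (a q)) :
    (⟨b 0, lt3 hL (hb 0)⟩ : Fin 3) = ⟨a 0, lt3 hL (ha 0)⟩ + 1 := by
  simp only [HT_sp hL (ha _) (ha _) (hb _)] at h1
  simp only [HT_sp hL (hb _) (hb _) (ha _)] at h2
  exact sparrow (fun p => ⟨a p, lt3 hL (ha p)⟩) (fun p => ⟨b p, lt3 hL (hb p)⟩) h1 h2

theorem tur_blocks {L n t : ℕ} (ht : 2 ≤ t) :
    Blocks t (tur L n) (fun v => blk L (v.val % L)) := by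
  obtain ⟨p0, hp0⟩ : ∃ p0 : Fin t, p0 = ⟨0, by omega⟩ := ⟨_, rfl⟩
  obtain ⟨p1, hp1⟩ : ∃ p1 : Fin t, p1 = ⟨1, by omega⟩ := ⟨_, rfl⟩
  have p01 : p0 ≠ p1 := by
    rw [hp0, hp1]
    simp
  refine ⟨?_, ?_, ?_, ?_⟩
  · intro x y z hxy hxz hyz hn
    rw [mem_tur hxy hyz hxz]
    exact fun h => hn ⟨h.1, h.1.trans h.2.1⟩
  · intro x y z w hxy hxz hxw hyz hyw hzw c1 c2 c3 h1 h2 h3 h4
    rw [mem_tur hxy hyz hxz] at h1
    rw [mem_tur hxy hyw hxw] at h2
    rw [mem_tur hxz hzw hxw] at h3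
    rw [mem_tur hyz hzw hyw] at h4
    by_cases hn : L % 2 = 0 ∨ blk L (x.val % L) ≠ 0
    · exact h1 (HT_ord hn rfl c1.symm c2.symm)
    · push Not at hn
      obtain ⟨hL, hv⟩ := hn
      have hy := c1.symm.trans hv
      have hz := c2.symm.trans hv
      have hw := c3.symm.trans hv
      rw [HT_sp hL hv hy hz] at h1
      rw [HT_sp hL hv hy hw] at h2
      rw [HT_sp hL hv hz hw] at h3
      rw [HT_sp hL hy hz hw] at h4
      exact spk4 ⟨_, lt3 hL hv⟩ ⟨_, lt3 hL hy⟩ ⟨_, lt3 hL hz⟩ ⟨_, lt3 hL hw⟩ h1 h2 h3 h4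
  · rintro f - ⟨hi, ⟨a1, a2⟩, ⟨b1, -⟩, h⟩
    have ne : ∀ {a b : Fin 3} {p q : Fin t}, (a, p) ≠ (b, q) → f (a, p) ≠ f (b, q) :=
      fun h h' => h (hi h')
    have ne1 : ∀ {a b : Fin 3} (p q : Fin t), a ≠ b → f (a, p) ≠ f (b, q) :=
      fun p q h => ne fun e => h (congrArg Prod.fst e)
    have ne2 : ∀ (a : Fin 3) {p q : Fin t}, p ≠ q → f (a, p) ≠ f (a, q) :=
      fun a _ _ h => ne fun e => h (congrArg Prod.snd e)
    have d01 : (0 : Fin 3) ≠ 1 := by decide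
    have d02 : (0 : Fin 3) ≠ 2 := by decide
    have d12 : (1 : Fin 3) ≠ 2 := by decide
    have u : Fin 2 → Fin t := fun p => if p = 0 then p0 else p1
    refine nat2 (L := L) (fun p => (f (0, if p = 0 then p0 else p1)).val % L)
      (fun p => (f (1, if p = 0 then p0 else p1)).val % L)
      (fun p => (f (2, if p = 0 then p0 else p1)).val % L) ?_ ?_ ?_ ?_
    · intro p q r
      have := h (if p = 0 then p0 else p1) (if q = 0 then p0 else p1) (if r = 0 then p0 else p1)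
      rwa [mem_tur (ne1 _ _ d01) (ne1 _ _ d12) (ne1 _ _ d02)] at this
    · intro q
      have := a1 p0 p1 (if q = 0 then p0 else p1) p01
      rw [mem_tur (ne2 0 p01) (ne1 _ _ d01) (ne1 _ _ d01), not_not] at this
      exact this
    · intro q
      have := a2 (if q = 0 then p0 else p1) p0 p1 p01
      rw [mem_tur (ne1 _ _ d01) (ne2 1 p01) (ne1 _ _ d01), not_not] at this
      exact this.s12.s23
    · intro q
      have := b1 p0 p1 (if q = 0 then p0 else p1) p01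
      rw [mem_tur (ne2 0 p01) (ne1 _ _ d02) (ne1 _ _ d02), not_not] at this
      exact this
  · intro f hc hi h01 h12 h23 h30 _ _
    have ne : ∀ {a b : Fin 4} {p q : Fin t}, (a, p) ≠ (b, q) → f (a, p) ≠ f (b, q) :=
      fun h h' => h (hi h')
    have ne1 : ∀ {a b : Fin 4} (p q : Fin t), a ≠ b → f (a, p) ≠ f (b, q) :=
      fun p q h => ne fun e => h (congrArg Prod.fst e)
    have ne2 : ∀ (a : Fin 4) {p q : Fin t}, p ≠ q → f (a, p) ≠ f (a, q) :=
      fun a _ _ h => ne fun e => h (congrArg Prod.snd e)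
    obtain ⟨⟨g01, -, -⟩, ⟨g12, -, -⟩, ⟨g23, -, -⟩, g30, -, -⟩ := four_arrow
    by_cases hn : L % 2 = 0 ∨ blk L ((f (0, p0)).val % L) ≠ 0
    · have h1 := h01.1 p0 p1 p0 p01
      rw [mem_tur (ne2 0 p01) (ne1 _ _ g01) (ne1 _ _ g01)] at h1
      exact h1 (HT_ord hn rfl (hc _ _) (hc _ _))
    · push Not at hn
      obtain ⟨hL, hv⟩ := hn
      have hb : ∀ u, blk L ((f u).val % L) = 0 := fun u => (hc u (0, p0)).trans hv
      have key : ∀ i j : Fin 4, i ≠ j → Arrow (tur L n) (fun p => f (i, p)) (fun p => f (j, p)) →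
          (⟨(f (j, p0)).val % L, lt3 hL (hb _)⟩ : Fin 3) = ⟨(f (i, p0)).val % L, lt3 hL (hb _)⟩ + 1 := by
        intro i j hij hA
        have := HT_arrow hL (a := fun p => (f (i, if p = 0 then p0 else p1)).val % L)
          (b := fun p => (f (j, if p = 0 then p0 else p1)).val % L) (fun _ => hb _) (fun _ => hb _)
          (by
            intro q
            have := hA.1 p0 p1 (if q = 0 then p0 else p1) p01
            rwa [mem_tur (ne2 i p01) (ne1 _ _ hij) (ne1 _ _ hij)] at this)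
          (by
            intro q
            have := hA.2 (if q = 0 then p0 else p1) p0 p1 p01
            rw [mem_tur (ne1 _ _ hij) (ne2 j p01) (ne1 _ _ hij), not_not] at this
            exact this.s12.s23)
        simpa using this
      exact spcyc _ _ _ _ (key 0 1 g01 h01) (key 1 2 g12 h12) (key 2 3 g23 h23) (key 3 0 g30 h30)

end Pool.Agent.Helper38.TP5
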