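import Pool.Agent.Helper38.TP5.TurB
import Pool.Graph.R_pool_sql_team_seeded_63374d34.Results.MP_466853_co.FonDerFlaassBlowUps

/-!
# Unions of Fon-der-Flaass systems have blocks
-/

set_option autoImplicit false

open Finset
open scoped Classical

namespace Pool.Agent.Helper38.TP5

open Pool.Agent.N442.LP Pool.Agent.N442.K4 Pool.Agent.Helper38.TP3 Pool.Agent.Helper38.TP4
open Pool.Agent.Results.MP_466853_co.FonDerFlaassBlowUps (IsOriented NoInducedC4 ManyIndependent
  construction mem_con three_of arc_of not_two noTriad pick3 IsTriad)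

variable {n b s : ℕ} {R : Fin n → Fin n → Prop} {c : Fin n → Fin b}

/-- all triples that meet two blocks, and the Fon-der-Flaass triples -/
noncomputable def uni {n b : ℕ} (R : Fin n → Fin n → Prop) (c : Fin n → Fin b) :
    Finset (Finset (Fin n)) :=
  (univ.powersetCard 3).filter fun e => (∃ x ∈ e, ∃ y ∈ e, c x ≠ c y) ∨ e ∈ construction R

theorem uni_three : ∀ e ∈ uni R c, e.card = 3 := fun e he =>
  (mem_powersetCard.mp (mem_filter.mp he).1).2

theorem uni_same {x y z : Fin n} (hxy : x ≠ y) (hxz : x ≠ z) (hyz : y ≠ z) (h1 : c x = c y)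
    (h2 : c x = c z) : ({x, y, z} : Finset (Fin n)) ∈ uni R c ↔
      ({x, y, z} : Finset (Fin n)) ∈ construction R := by
  unfold uni
  rw [mem_filter]
  constructor
  · rintro ⟨-, ⟨u, hu, v, hv, huv⟩ | h⟩
    · exfalso
      apply huv
      simp only [mem_insert, mem_singleton] at hu hv
      have e : ∀ w, w = x ∨ w = y ∨ w = z → c w = c x := by
        rintro w (rfl | rfl | rfl)
        · rfl
        · exact h1.symm
        · exact h2.symm
      rw [e u hu, e v hv]
    · exact h
  · intro h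
    exact ⟨mem_powersetCard.mpr ⟨subset_univ _, card_eq_three.mpr ⟨x, y, z, hxy, hxz, hyz, rfl⟩⟩,
      Or.inr h⟩

theorem uni_cross {x y z : Fin n} (hxy : x ≠ y) (hxz : x ≠ z) (hyz : y ≠ z)
    (h : ¬ (c x = c y ∧ c x = c z)) : ({x, y, z} : Finset (Fin n)) ∈ uni R c := by
  unfold uni
  rw [mem_filter]
  refine ⟨mem_powersetCard.mpr ⟨subset_univ _, card_eq_three.mpr ⟨x, y, z, hxy, hxz, hyz, rfl⟩⟩,
    Or.inl ?_⟩
  by_cases h1 : c x = c y
  · exact ⟨x, by simp, z, by simp, fun h2 => h ⟨h1, h2⟩⟩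
  · exact ⟨x, by simp, y, by simp, h1⟩

theorem four_sub {V : Type} [DecidableEq V] {x y z w : V} (hxy : x ≠ y) (hxz : x ≠ z) (hxw : x ≠ w)
    (hyz : y ≠ z) (hyw : y ≠ w) (hzw : z ≠ w) {e : Finset V} (he : e ⊆ {x, y, z, w})
    (h3 : e.card = 3) : e = {x, y, z} ∨ e = {x, y, w} ∨ e = {x, z, w} ∨ e = {y, z, w} := by
  have hS : ({x, y, z, w} : Finset V).card = 4 :=
    card_eq_four.mpr ⟨x, y, z, w, hxy, hxz, hxw, hyz, hyw, hzw, rfl⟩
  obtain ⟨v, hv, hve⟩ : ∃ v ∈ ({x, y, z, w} : Finset V), v ∉ e := by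
    by_contra hcon
    push Not at hcon
    have := card_le_card hcon
    omega
  have hlt : e = ({x, y, z, w} : Finset V).erase v := by
    refine eq_of_subset_of_card_le (fun u hu => mem_erase.mpr ⟨?_, he hu⟩) ?_
    · rintro rfl
      exact hve hu
    · rw [card_erase_of_mem hv, hS, h3]
  simp only [mem_insert, mem_singleton] at hv
  rw [hlt]
  rcases hv with rfl | rfl | rfl | rfl
  · right; right; right
    ext u
    simp only [mem_erase, mem_insert, mem_singleton]
    constructor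
    · rintro ⟨h1, h | h | h | h⟩
      · exact absurd h h1
      · exact Or.inl h
      · exact Or.inr (Or.inl h)
      · exact Or.inr (Or.inr h)
    · rintro (rfl | rfl | rfl)
      · exact ⟨hxy.symm, Or.inr (Or.inl rfl)⟩
      · exact ⟨hxz.symm, Or.inr (Or.inr (Or.inl rfl))⟩
      · exact ⟨hxw.symm, Or.inr (Or.inr (Or.inr rfl))⟩
  · right; right; left
    ext u
    simp only [mem_erase, mem_insert, mem_singleton]
    constructor
    · rintro ⟨h1, h | h | h | h⟩
      · exact Or.inl h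
      · exact absurd h h1
      · exact Or.inr (Or.inl h)
      · exact Or.inr (Or.inr h)
    · rintro (rfl | rfl | rfl)
      · exact ⟨hxy, Or.inl rfl⟩
      · exact ⟨hyz.symm, Or.inr (Or.inr (Or.inl rfl))⟩
      · exact ⟨hyw.symm, Or.inr (Or.inr (Or.inr rfl))⟩
  · right; left
    ext u
    simp only [mem_erase, mem_insert, mem_singleton]
    constructor
    · rintro ⟨h1, h | h | h | h⟩
      · exact Or.inl h
      · exact Or.inr (Or.inl h)
      · exact absurd h h1
      · exact Or.inr (Or.inr h)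
    · rintro (rfl | rfl | rfl)
      · exact ⟨hxz, Or.inl rfl⟩
      · exact ⟨hyz, Or.inr (Or.inl rfl)⟩
      · exact ⟨hzw.symm, Or.inr (Or.inr (Or.inr rfl))⟩
  · left
    ext u
    simp only [mem_erase, mem_insert, mem_singleton]
    constructor
    · rintro ⟨h1, h | h | h | h⟩
      · exact Or.inl h
      · exact Or.inr (Or.inl h)
      · exact Or.inr (Or.inr h)
      · exact absurd h h1
    · rintro (rfl | rfl | rfl)
      · exact ⟨hxw, Or.inl rfl⟩
      · exact ⟨hyw, Or.inr (Or.inl rfl)⟩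
      · exact ⟨hzw, Or.inr (Or.inr (Or.inl rfl))⟩

theorem con_k4 (hO : IsOriented R) (hC : NoInducedC4 R) {x y z w : Fin n} (hxy : x ≠ y) (hxz : x ≠ z)
    (hxw : x ≠ w) (hyz : y ≠ z) (hyw : y ≠ w) (hzw : z ≠ w)
    (h1 : ({x, y, z} : Finset (Fin n)) ∈ construction R)
    (h2 : ({x, y, w} : Finset (Fin n)) ∈ construction R)
    (h3 : ({x, z, w} : Finset (Fin n)) ∈ construction R)
    (h4 : ({y, z, w} : Finset (Fin n)) ∈ construction R) : False := by
  have hS : ({x, y, z, w} : Finset (Fin n)).card = 4 :=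
    card_eq_four.mpr ⟨x, y, z, w, hxy, hxz, hxw, hyz, hyw, hzw, rfl⟩
  obtain ⟨e, he, he3, hn⟩ :=
    Pool.Agent.Results.MP_f1799f_co.FonDerFlaass.k43free R hO hC {x, y, z, w} hS
  rw [← Pool.Agent.Results.MP_466853_co.FonDerFlaassBlowUps.con_eq] at hn
  rcases four_sub hxy hxz hxw hyz hyw hzw he he3 with rfl | rfl | rfl | rfl
  · exact hn h1
  · exact hn h2
  · exact hn h3
  · exact hn h4

theorem con_cycle (hO : IsOriented R) (hC : NoInducedC4 R) (hM : ManyIndependent s R)
    (f : Fin 4 × Fin s → Fin n) (hf : Function.Injective f)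
    (h01 : Arrow (construction R) (fun p => f (0, p)) (fun p => f (1, p)))
    (h12 : Arrow (construction R) (fun p => f (1, p)) (fun p => f (2, p)))
    (h23 : Arrow (construction R) (fun p => f (2, p)) (fun p => f (3, p)))
    (h30 : Arrow (construction R) (fun p => f (3, p)) (fun p => f (0, p)))
    (h02 : Apart (construction R) (fun p => f (0, p)) (fun p => f (2, p)))
    (h13 : Apart (construction R) (fun p => f (1, p)) (fun p => f (3, p))) : False := by
  have inj : ∀ a, Function.Injective fun p => f (a, p) := fun a p q h => (Prod.mk.inj (hf h)).2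
  have hsel : ∀ a : Fin 4, ∃ g : Fin 3 → Fin s, Function.Injective g ∧
      ∀ p q, ¬ R (f (a, g p)) (f (a, g q)) := fun a => three_of hM _ (inj a)
  choose g hg hgR using hsel
  have ne : ∀ {a b : Fin 4} {p q : Fin s}, (a, p) ≠ (b, q) → f (a, p) ≠ f (b, q) :=
    fun h h' => h (hf h')
  have n1 : ∀ a : Fin 4, ∀ p q : Fin 3, p ≠ q → g a p ≠ g a q := fun a p q h h' => h (hg a h')
  have arc : ∀ a b : Fin 4, a ≠ b → Arrow (construction R) (fun p => f (a, p)) (fun p => f (b, p)) →
      ∀ p q, R (f (a, g a p)) (f (b, g b q)) := by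
    intro a b hab hA p q
    obtain ⟨p', hp⟩ : ∃ p' : Fin 3, p ≠ p' := ⟨p + 1, by fin_cases p <;> decide⟩
    obtain ⟨q', hq⟩ : ∃ q' : Fin 3, q ≠ q' := ⟨q + 1, by fin_cases q <;> decide⟩
    have m1 := n1 a p p' hp
    have m2 := n1 b q q' hq
    exact arc_of rfl (ne fun h => m1 (Prod.mk.inj h).2) (ne fun h => m2 (Prod.mk.inj h).2)
      (ne fun h => hab (Prod.mk.inj h).1) (ne fun h => hab (Prod.mk.inj h).1)
      (ne fun h => hab (Prod.mk.inj h).1) (ne fun h => hab (Prod.mk.inj h).1)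
      (hgR a p p') (hgR a p' p) (hgR b q q') (hgR b q' q) (hA.1 _ _ _ m1) (hA.1 _ _ _ m1)
      (hA.2 _ _ _ m2)
  have far : ∀ a b : Fin 4, a ≠ b → Apart (construction R) (fun p => f (a, p)) (fun p => f (b, p)) →
      ∃ p q, ¬ (R (f (a, g a p)) (f (b, g b q)) ∨ R (f (b, g b q)) (f (a, g a p))) := by
    intro a b hab hA
    by_contra hcon
    push Not at hcon
    have m1 := n1 a 0 1 (by decide)
    have m2 := n1 b 0 1 (by decide)
    exact not_two hO rfl (ne fun h => m1 (Prod.mk.inj h).2) (ne fun h => m2 (Prod.mk.inj h).2)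
      (ne fun h => hab (Prod.mk.inj h).1) (ne fun h => hab (Prod.mk.inj h).1)
      (ne fun h => hab (Prod.mk.inj h).1) (ne fun h => hab (Prod.mk.inj h).1)
      (hgR a 0 1) (hgR a 1 0) (hgR b 0 1) (hgR b 1 0) (hA.2 _ _ _ m2) (hA.2 _ _ _ m2)
      (hA.1 _ _ _ m1) (hcon 0 0) (hcon 0 1) (hcon 1 0) (hcon 1 1)
  obtain ⟨p0, p2, hp⟩ := far 0 2 (by decide) h02
  obtain ⟨p1, p3, hq⟩ := far 1 3 (by decide) h13
  push Not at hp hq
  exact hC ⟨_, _, _, _, arc 0 1 (by decide) h01 p0 p1, arc 1 2 (by decide) h12 p1 p2,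
    arc 2 3 (by decide) h23 p2 p3, arc 3 0 (by decide) h30 p3 p0, hp.1, hp.2, hq.1, hq.2⟩

theorem uni_blocks (hO : IsOriented R) (hC : NoInducedC4 R) (hM : ManyIndependent s R) :
    Blocks s (uni R c) (fun v => (c v).val) := by
  have two : ∀ {A : Type} (F : A × Fin s → Fin n) (i j : A) (p q r : Fin s), Function.Injective F →
      (∀ u v, (c (F u)).val = (c (F v)).val) → i ≠ j → p ≠ q →
      (({F (i, p), F (i, q), F (j, r)} : Finset (Fin n)) ∈ uni R c ↔
        ({F (i, p), F (i, q), F (j, r)} : Finset (Fin n)) ∈ construction R) := by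
    intro A F i j p q r hF hc hij hpq
    exact uni_same (hF.ne fun h => hpq (Prod.mk.inj h).2) (hF.ne fun h => hij (Prod.mk.inj h).1)
      (hF.ne fun h => hij (Prod.mk.inj h).1) (Fin.ext (hc _ _)) (Fin.ext (hc _ _))
  have two' : ∀ {A : Type} (F : A × Fin s → Fin n) (i j : A) (p q r : Fin s), Function.Injective F →
      (∀ u v, (c (F u)).val = (c (F v)).val) → i ≠ j → q ≠ r →
      (({F (i, p), F (j, q), F (j, r)} : Finset (Fin n)) ∈ uni R c ↔
        ({F (i, p), F (j, q), F (j, r)} : Finset (Fin n)) ∈ construction R) := by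
    intro A F i j p q r hF hc hij hqr
    exact uni_same (hF.ne fun h => hij (Prod.mk.inj h).1) (hF.ne fun h => hij (Prod.mk.inj h).1)
      (hF.ne fun h => hqr (Prod.mk.inj h).2) (Fin.ext (hc _ _)) (Fin.ext (hc _ _))
  have hAp : ∀ {A : Type} (F : A × Fin s → Fin n) (i j : A), Function.Injective F →
      (∀ u v, (c (F u)).val = (c (F v)).val) → i ≠ j →
      Apart (uni R c) (fun p => F (i, p)) (fun p => F (j, p)) →
      Apart (construction R) (fun p => F (i, p)) (fun p => F (j, p)) := by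
    intro A F i j hF hc hij h
    exact ⟨fun p q r hpq hh => h.1 p q r hpq ((two F i j p q r hF hc hij hpq).mpr hh),
      fun p q r hqr hh => h.2 p q r hqr ((two' F i j p q r hF hc hij hqr).mpr hh)⟩
  have hAr : ∀ {A : Type} (F : A × Fin s → Fin n) (i j : A), Function.Injective F →
      (∀ u v, (c (F u)).val = (c (F v)).val) → i ≠ j →
      Arrow (uni R c) (fun p => F (i, p)) (fun p => F (j, p)) →
      Arrow (construction R) (fun p => F (i, p)) (fun p => F (j, p)) := by
    intro A F i j hF hc hij h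
    exact ⟨fun p q r hpq => (two F i j p q r hF hc hij hpq).mp (h.1 p q r hpq),
      fun p q r hqr hh => h.2 p q r hqr ((two' F i j p q r hF hc hij hqr).mpr hh)⟩
  refine ⟨?_, ?_, ?_, ?_⟩
  · intro x y z hxy hxz hyz h
    exact uni_cross hxy hxz hyz fun h' => h ⟨congrArg _ h'.1, congrArg _ h'.2⟩
  · intro x y z w hxy hxz hxw hyz hyw hzw c1 c2 c3 h1 h2 h3 h4
    have d1 : c x = c y := Fin.ext c1
    have d2 : c x = c z := Fin.ext c2
    have d3 : c x = c w := Fin.ext c3
    exact con_k4 hO hC hxy hxz hxw hyz hyw hzw ((uni_same hxy hxz hyz d1 d2).mp h1)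
      ((uni_same hxy hxw hyw d1 d3).mp h2) ((uni_same hxz hxw hzw d2 d3).mp h3)
      ((uni_same hyz hyw hzw (d1.symm.trans d2) (d1.symm.trans d3)).mp h4)
  · rintro f hc ⟨hf, h01, h02, h012⟩
    refine noTriad hO hM f ⟨hf, hAp f 0 1 hf hc (by decide) h01, hAp f 0 2 hf hc (by decide) h02, ?_⟩
    intro p q r
    exact (uni_same (hf.ne fun h => absurd (Prod.mk.inj h).1 (by decide))
      (hf.ne fun h => absurd (Prod.mk.inj h).1 (by decide))
      (hf.ne fun h => absurd (Prod.mk.inj h).1 (by decide)) (Fin.ext (hc _ _))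
      (Fin.ext (hc _ _))).mp (h012 p q r)
  · intro f hc hf h01 h12 h23 h30 h02 h13
    exact con_cycle hO hC hM f hf (hAr f 0 1 hf hc (by decide) h01) (hAr f 1 2 hf hc (by decide) h12)
      (hAr f 2 3 hf hc (by decide) h23) (hAr f 3 0 hf hc (by decide) h30)
      (hAp f 0 2 hf hc (by decide) h02) (hAp f 1 3 hf hc (by decide) h13)

/-- **The union is `K_m^3`-free** if the blocks with arcs count three times and the others twice. -/
theorem uni_free (hO : IsOriented R) (hC : NoInducedC4 R) {m : ℕ}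
    (hm : ∑ β : Fin b, (if ∃ x y, c x = β ∧ c y = β ∧ R x y then 3 else 2) < m) :
    KFree m (uni R c) := by
  intro S hS
  by_contra hcon
  push Not at hcon
  have hall : ∀ x ∈ S, ∀ y ∈ S, ∀ z ∈ S, x ≠ y → x ≠ z → y ≠ z →
      ({x, y, z} : Finset (Fin n)) ∈ uni R c := by
    intro x hx y hy z hz hxy hxz hyz
    refine hcon _ (mem_powersetCard.mpr ⟨?_, card_eq_three.mpr ⟨x, y, z, hxy, hxz, hyz, rfl⟩⟩)
    intro u hu
    simp only [mem_insert, mem_singleton] at hu
    rcases hu with rfl | rfl | rfl <;> assumption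
  have hsum : S.card = ∑ β : Fin b, (S.filter fun x => c x = β).card :=
    card_eq_sum_card_fiberwise fun x _ => mem_coe.mpr (mem_univ _)
  have hle : ∀ β ∈ (univ : Finset (Fin b)), (S.filter fun x => c x = β).card ≤
      (if ∃ x y, c x = β ∧ c y = β ∧ R x y then 3 else 2) := by
    intro β _
    by_contra hlt
    rw [not_le] at hlt
    split_ifs at hlt with hR
    · obtain ⟨T, hT, hT4⟩ := exists_subset_card_eq (show 4 ≤ (S.filter fun x => c x = β).card from hlt)
      obtain ⟨x, y, z, w, hxy, hxz, hxw, hyz, hyw, hzw, rfl⟩ := card_eq_four.mp hT4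
      have m1 := mem_filter.mp (hT (show x ∈ _ by simp))
      have m2 := mem_filter.mp (hT (show y ∈ _ by simp))
      have m3 := mem_filter.mp (hT (show z ∈ _ by simp))
      have m4 := mem_filter.mp (hT (show w ∈ _ by simp))
      have d1 : c x = c y := m1.2.trans m2.2.symm
      have d2 : c x = c z := m1.2.trans m3.2.symm
      have d3 : c x = c w := m1.2.trans m4.2.symm
      exact con_k4 hO hC hxy hxz hxw hyz hyw hzw
        ((uni_same hxy hxz hyz d1 d2).mp (hall _ m1.1 _ m2.1 _ m3.1 hxy hxz hyz))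
        ((uni_same hxy hxw hyw d1 d3).mp (hall _ m1.1 _ m2.1 _ m4.1 hxy hxw hyw))
        ((uni_same hxz hxw hzw d2 d3).mp (hall _ m1.1 _ m3.1 _ m4.1 hxz hxw hzw))
        ((uni_same hyz hyw hzw (d1.symm.trans d2) (d1.symm.trans d3)).mp
          (hall _ m2.1 _ m3.1 _ m4.1 hyz hyw hzw))
    · obtain ⟨T, hT, hT3⟩ := exists_subset_card_eq (show 3 ≤ (S.filter fun x => c x = β).card from hlt)
      obtain ⟨x, y, z, hxy, hxz, hyz, rfl⟩ := card_eq_three.mp hT3
      have m1 := mem_filter.mp (hT (show x ∈ _ by simp))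
      have m2 := mem_filter.mp (hT (show y ∈ _ by simp))
      have m3 := mem_filter.mp (hT (show z ∈ _ by simp))
      have h := (uni_same hxy hxz hyz (m1.2.trans m2.2.symm) (m1.2.trans m3.2.symm)).mp
        (hall _ m1.1 _ m2.1 _ m3.1 hxy hxz hyz)
      rw [mem_con hxy hxz hyz] at h
      push Not at hR
      rcases h.1.1 with (h | h) | (h | h)
      · exact hR _ _ m1.2 m2.2 h
      · exact hR _ _ m2.2 m1.2 h
      · exact hR _ _ m1.2 m3.2 h
      · exact hR _ _ m3.2 m1.2 h
  have := sum_le_sum hle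
  omega

end Pool.Agent.Helper38.TP5
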